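import Pool.Agent.NH56.PA.Stm

/-!
# PA-AVG: averaging over `G / U`
-/

set_option autoImplicit false

namespace Pool.Agent.NH56.PA

open Matrix

namespace Avg

variable {G R k : Type} [Group G] [CommRing R] [CommRing k] {n : ℕ}

/-- the conjugate -/
def F (ρ₁ ρ₂ : G →* GL (Fin n) R) (S : Matrix (Fin n) (Fin n) R) (g : G) :
    Matrix (Fin n) (Fin n) R :=
  (ρ₁ g : Matrix (Fin n) (Fin n) R) * S * (ρ₂ g⁻¹ : Matrix (Fin n) (Fin n) R)

lemma mulc (ρ : G →* GL (Fin n) R) (g h : G) : (ρ (g * h) : Matrix (Fin n) (Fin n) R) =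
    (ρ g : Matrix (Fin n) (Fin n) R) * (ρ h : Matrix (Fin n) (Fin n) R) := by
  rw [map_mul]
  rfl

lemma mul_inv' (ρ : G →* GL (Fin n) R) (g : G) : (ρ g : Matrix (Fin n) (Fin n) R) *
    (ρ g⁻¹ : Matrix (Fin n) (Fin n) R) = 1 := by
  rw [← mulc, mul_inv_cancel, map_one]
  rfl

lemma inv_mul' (ρ : G →* GL (Fin n) R) (g : G) : (ρ g⁻¹ : Matrix (Fin n) (Fin n) R) *
    (ρ g : Matrix (Fin n) (Fin n) R) = 1 := by
  rw [← mulc, inv_mul_cancel, map_one]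
  rfl

lemma F_mul_right {ρ₁ ρ₂ : G →* GL (Fin n) R} {S : Matrix (Fin n) (Fin n) R} {g u : G}
    (h : (ρ₁ u : Matrix (Fin n) (Fin n) R) * S = S * ρ₂ u) : F ρ₁ ρ₂ S (g * u) = F ρ₁ ρ₂ S g := by
  unfold F
  rw [_root_.mul_inv_rev, mulc, mulc]
  calc (ρ₁ g : Matrix (Fin n) (Fin n) R) * ρ₁ u * S * (ρ₂ u⁻¹ * ρ₂ g⁻¹)
      = ρ₁ g * (ρ₁ u * S) * ρ₂ u⁻¹ * ρ₂ g⁻¹ := by simp only [mul_assoc]
    _ = ρ₁ g * S * (ρ₂ u * ρ₂ u⁻¹) * ρ₂ g⁻¹ := by rw [h]; simp only [mul_assoc]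
    _ = _ := by rw [mul_inv', mul_one]

lemma mul_F (ρ₁ ρ₂ : G →* GL (Fin n) R) (S : Matrix (Fin n) (Fin n) R) (h g : G) :
    (ρ₁ h : Matrix (Fin n) (Fin n) R) * F ρ₁ ρ₂ S g = F ρ₁ ρ₂ S (h * g) * ρ₂ h := by
  unfold F
  rw [_root_.mul_inv_rev, mulc, mulc]
  calc (ρ₁ h : Matrix (Fin n) (Fin n) R) * (ρ₁ g * S * ρ₂ g⁻¹)
      = ρ₁ h * ρ₁ g * S * ρ₂ g⁻¹ * 1 := by simp only [mul_assoc, mul_one]
    _ = ρ₁ h * ρ₁ g * S * ρ₂ g⁻¹ * (ρ₂ h⁻¹ * ρ₂ h) := by rw [inv_mul']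
    _ = _ := by simp only [mul_assoc]

end Avg

open Avg in
/-- PA-AVG -/
theorem t_AVG : S_AVG := by
  intro G R k _ _ _ φ n ρ₁ ρ₂ U hU hunit r A B hR
  have : Finite (G ⧸ U) := Subgroup.finite_quotient_of_finiteIndex
  have : Fintype (G ⧸ U) := Fintype.ofFinite _
  obtain ⟨v, hv⟩ := hunit
  obtain ⟨c, hc⟩ : ∃ c : R, c * ((U.index : ℕ) : R) = 1 := ⟨(v⁻¹ : Rˣ), by rw [← hv]; simp⟩
  have hcard : U.index = Fintype.card (G ⧸ U) := by
    rw [Subgroup.index_eq_card, Nat.card_eq_fintype_card]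
  rw [hcard] at hc
  let e : (G ⧸ U) × Fin r ≃ Fin (Fintype.card ((G ⧸ U) × Fin r)) := Fintype.equivFin _
  let A' : Fin (Fintype.card ((G ⧸ U) × Fin r)) → Matrix (Fin n) (Fin n) R :=
    fun i => c • ((ρ₁ (e.symm i).1.out : Matrix (Fin n) (Fin n) R) * A (e.symm i).2)
  let B' : Fin (Fintype.card ((G ⧸ U) × Fin r)) → Matrix (Fin n) (Fin n) R :=
    fun i => B (e.symm i).2 * (ρ₂ ((e.symm i).1.out)⁻¹ : Matrix (Fin n) (Fin n) R)
  have hop : ∀ M, op A' B' M = c • ∑ q : G ⧸ U, F ρ₁ ρ₂ (op A B M) q.out := by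
    intro M
    have h1 : op A' B' M = ∑ p : (G ⧸ U) × Fin r,
        c • ((ρ₁ p.1.out : Matrix (Fin n) (Fin n) R) * A p.2) * M *
          (B p.2 * (ρ₂ (p.1.out)⁻¹ : Matrix (Fin n) (Fin n) R)) := by
      unfold op
      exact (Fintype.sum_equiv e.symm _ _ fun i => rfl)
    rw [h1, Fintype.sum_prod_type, Finset.smul_sum]
    refine Finset.sum_congr rfl fun q _ => ?_
    unfold F op
    rw [Finset.mul_sum, Finset.sum_mul, Finset.smul_sum]
    refine Finset.sum_congr rfl fun t _ => ?_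
    simp only [smul_mul_assoc, mul_assoc]
  have hout : ∀ (M : Matrix (Fin n) (Fin n) R) (h : G) (q : G ⧸ U),
      F ρ₁ ρ₂ (op A B M) (h * q.out) = F ρ₁ ρ₂ (op A B M) (h • q).out := by
    intro M h q
    have h1 : (((h • q).out : G) : G ⧸ U) = ((h * q.out : G) : G ⧸ U) := by
      rw [QuotientGroup.out_eq']
      conv_lhs => rw [← QuotientGroup.out_eq' q]
      rfl
    have h2 : ((h • q).out)⁻¹ * (h * q.out) ∈ U := QuotientGroup.eq.1 h1
    have h3 : h * q.out = (h • q).out * (((h • q).out)⁻¹ * (h * q.out)) := by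
      rw [mul_inv_cancel_left]
    rw [h3]
    exact F_mul_right (hR.inter M _ h2)
  refine ⟨_, A', B', ⟨fun i => ?_, fun i => ?_, fun M h _ => ?_, fun M hM => ?_⟩⟩
  · exact Subalgebra.smul_mem _ (Subalgebra.mul_mem _
      (Algebra.subset_adjoin (Set.mem_range_self (e.symm i).1.out)) (hR.memA _)) c
  · exact Subalgebra.mul_mem _ (hR.memB _) (Algebra.subset_adjoin
      (Set.mem_range_self ((e.symm i).1.out)⁻¹))
  · rw [hop, mul_smul_comm, smul_mul_assoc, Finset.mul_sum, Finset.sum_mul]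
    congr 1
    rw [← Equiv.sum_comp (MulAction.toPerm h) (fun q : G ⧸ U =>
      F ρ₁ ρ₂ (op A B M) q.out * (ρ₂ h : Matrix (Fin n) (Fin n) R))]
    refine Finset.sum_congr rfl fun q _ => ?_
    rw [mul_F, hout]
    rfl
  · have h1 := hR.res M fun g _ => hM g (Subgroup.mem_top g)
    have h2 : ∀ q : G ⧸ U, (F ρ₁ ρ₂ (op A B M) q.out).map φ = M.map φ := by
      intro q
      unfold F
      rw [Matrix.map_mul, Matrix.map_mul, h1, hM _ (Subgroup.mem_top _), mul_assoc, ← Matrix.map_mul,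
        mul_inv', Matrix.map_one _ (map_zero φ) (map_one φ), mul_one]
    have h3 : (op A' B' M).map φ = φ c • ∑ q : G ⧸ U, (F ρ₁ ρ₂ (op A B M) q.out).map φ := by
      rw [hop]
      ext i j
      simp only [Matrix.map_apply, Matrix.smul_apply, Matrix.sum_apply, smul_eq_mul, map_mul, map_sum]
    rw [h3]
    simp only [h2]
    rw [Finset.sum_const, Finset.card_univ, ← Nat.cast_smul_eq_nsmul k, smul_smul]
    have h4 : φ c * ((Fintype.card (G ⧸ U) : ℕ) : k) = 1 := by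
      have := congrArg φ hc
      rwa [map_mul, map_natCast, map_one] at this
    rw [h4, one_smul]

end Pool.Agent.NH56.PA
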