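import Pool.Agent.NH56.PA.Stm

/-!
# Characters which agree at one generic element agree
-/

set_option autoImplicit false

namespace Pool.Agent.NH56.PA

namespace Chi

open scoped Pointwise

variable {U K : Type} [Group U] [Field K] {n : ℕ}

/-- a finite index subgroup is not contained in finitely many cosets of subgroups of infinite index -/
theorem exists_off (W : Subgroup U) (hW : W.FiniteIndex) (g0 : U) (J : Finset (Fin n × Fin n))
    (R : Fin n × Fin n → Subgroup U) (hR : ∀ p ∈ J, ¬ (R p).FiniteIndex) :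
    ∃ w ∈ W, ∀ p ∈ J, g0 * w ∉ R p := by
  classical
  by_contra hcon
  push Not at hcon
  have : Fintype (U ⧸ W) := Subgroup.fintypeOfIndexNeZero hW.index_ne_zero
  have hcov : ⋃ i ∈ (Finset.univ : Finset (U ⧸ W)) ×ˢ J,
      (i.1.out * g0⁻¹) • ((R i.2 : Subgroup U) : Set U) = Set.univ := by
    rw [Set.eq_univ_iff_forall]
    intro x
    let t : U ⧸ W := (x : U ⧸ W)
    have ht : t.out⁻¹ * x ∈ W := by
      rw [← QuotientGroup.eq]
      exact QuotientGroup.out_eq' t
    obtain ⟨p, hp, hpx⟩ := hcon _ ht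
    simp only [Set.mem_iUnion]
    refine ⟨(t, p), Finset.mem_product.2 ⟨Finset.mem_univ _, hp⟩, ?_⟩
    rw [Set.mem_smul_set_iff_inv_smul_mem, smul_eq_mul]
    have : (t.out * g0⁻¹)⁻¹ * x = g0 * (t.out⁻¹ * x) := by group
    show (t.out * g0⁻¹)⁻¹ * x ∈ ((R p : Subgroup U) : Set U)
    rw [this]
    exact hpx
  obtain ⟨k, hk, hfin⟩ := Subgroup.exists_finiteIndex_of_leftCoset_cover hcov
  exact hR k.2 (Finset.mem_product.1 hk).2 hfin

end Chi

theorem t_CHI : S_CHI := by
  classical
  intro U K _ _ n s χ h1 h2 u hu i j hij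
  let R : Fin n × Fin n → Subgroup U := fun p => (χ p.1).eqLocus (χ p.2)
  have hRm : ∀ p g, g ∈ R p ↔ χ p.1 g = χ p.2 g := fun p g => Iff.rfl
  let I : Finset (Fin n × Fin n) := Finset.univ.filter fun p => (R p).FiniteIndex
  let W : Subgroup U := ⨅ p : {p // p ∈ I}, R p
  have hWfin : W.FiniteIndex := Subgroup.finiteIndex_iInf fun p => (Finset.mem_filter.1 p.2).2
  have hWm : ∀ g, g ∈ W ↔ ∀ p ∈ I, χ p.1 g = χ p.2 g := by
    intro g
    show g ∈ ⨅ p : {p // p ∈ I}, R p ↔ _
    rw [Subgroup.mem_iInf]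
    exact ⟨fun h p hp => h ⟨p, hp⟩, fun h p => h p p.2⟩
  obtain ⟨w0, hw0, hsw0⟩ := h2 W I hWfin hWm
  -- the equivalence relation
  let r : Setoid (Fin n) :=
    { r := fun i j => ∀ w ∈ W, χ i w = χ j w
      iseqv := ⟨fun _ _ _ => rfl, fun h w hw => (h w hw).symm,
        fun h h' w hw => (h w hw).trans (h' w hw)⟩ }
  have hrI : ∀ i j, ¬ r i j → (i, j) ∉ I := by
    intro i j h hI
    exact h fun w hw => (hWm w).1 hw (i, j) hI
  have hrI' : ∀ p ∉ I, ¬ (R p).FiniteIndex := fun p hp h =>
    hp (Finset.mem_filter.2 ⟨Finset.mem_univ _, h⟩)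
  let Q := Quotient r
  have hout : ∀ i, r (Quotient.out (s := r) ⟦i⟧) i := fun i => Quotient.mk_out i
  have hcw : (Finset.univ.image fun i => χ i w0).card ≤ Fintype.card Q := by
    have hsub : (Finset.univ.image fun i => χ i w0) ⊆
        Finset.univ.image fun q : Q => χ q.out w0 := by
      intro x hx
      obtain ⟨i, _, rfl⟩ := Finset.mem_image.1 hx
      exact Finset.mem_image.2 ⟨⟦i⟧, Finset.mem_univ _, hout i w0 hw0⟩
    exact (Finset.card_le_card hsub).trans Finset.card_image_le
  have hsc : s ≤ Fintype.card Q := hsw0.trans hcw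
  have key : ∀ g0, s = Fintype.card Q ∧ ∀ i, χ i g0 = χ (Quotient.out (s := r) ⟦i⟧) g0 := by
    intro g0
    obtain ⟨w, hw, hwoff⟩ := Chi.exists_off W hWfin g0 (Finset.univ.filter fun p => p ∉ I) R
      (fun p hp => hrI' p (Finset.mem_filter.1 hp).2)
    have hne : ∀ i j, ¬ r i j → χ i (g0 * w) ≠ χ j (g0 * w) := by
      intro i j h
      exact hwoff (i, j) (Finset.mem_filter.2 ⟨Finset.mem_univ _, hrI i j h⟩)
    have hinj : Function.Injective fun q : Q => χ q.out (g0 * w) := by
      intro q q' h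
      by_contra hqq
      refine hne q.out q'.out ?_ h
      intro hr
      apply hqq
      rw [← Quotient.out_eq q, ← Quotient.out_eq q']
      exact Quotient.sound hr
    have hcard : (Finset.univ.image fun q : Q => χ q.out (g0 * w)).card = Fintype.card Q := by
      rw [Finset.card_image_of_injective _ hinj]
      rfl
    have hsub : (Finset.univ.image fun q : Q => χ q.out (g0 * w)) ⊆
        Finset.univ.image fun i => χ i (g0 * w) := by
      intro x hx
      obtain ⟨q, _, rfl⟩ := Finset.mem_image.1 hx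
      exact Finset.mem_image.2 ⟨q.out, Finset.mem_univ _, rfl⟩
    have hle := h1 (g0 * w)
    have hcs := Finset.card_le_card hsub
    have hs : s = Fintype.card Q := le_antisymm hsc (by omega)
    have heq := Finset.eq_of_subset_of_card_le hsub (by omega)
    refine ⟨hs, fun i => ?_⟩
    have hi : χ i (g0 * w) ∈ Finset.univ.image fun q : Q => χ q.out (g0 * w) := by
      rw [heq]
      exact Finset.mem_image.2 ⟨i, Finset.mem_univ _, rfl⟩
    obtain ⟨q, _, hq⟩ := Finset.mem_image.1 hi
    have hrq : r q.out i := by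
      by_contra h
      exact hne _ _ h hq
    have hqi : q = ⟦i⟧ := by
      rw [← Quotient.out_eq q]
      exact Quotient.sound hrq
    rw [hqi] at hq
    rw [map_mul, map_mul, hout i w hw] at hq
    have hne0 : χ i w ≠ 0 := by
      intro h0
      have h3 : χ i (w * w⁻¹) = 0 := by rw [map_mul, h0, zero_mul]
      rw [mul_inv_cancel, map_one] at h3
      exact one_ne_zero h3
    exact (mul_right_cancel₀ hne0 hq).symm
  have hs := (key 1).1
  have himg : (Finset.univ.image fun i => χ i u) ⊆ Finset.univ.image fun q : Q => χ q.out u := by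
    intro x hx
    obtain ⟨i, _, rfl⟩ := Finset.mem_image.1 hx
    exact Finset.mem_image.2 ⟨⟦i⟧, Finset.mem_univ _, ((key u).2 i).symm⟩
  have hinj : Set.InjOn (fun q : Q => χ q.out u) (Finset.univ : Finset Q) := by
    apply Finset.injOn_of_card_image_eq
    apply le_antisymm Finset.card_image_le
    have h3 := Finset.card_le_card himg
    have h4 : (Finset.univ : Finset Q).card = Fintype.card Q := rfl
    omega
  have hq : (⟦i⟧ : Q) = ⟦j⟧ := by
    apply hinj (Finset.mem_coe.2 (Finset.mem_univ _)) (Finset.mem_coe.2 (Finset.mem_univ _))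
    show χ (Quotient.out (s := r) ⟦i⟧) u = χ (Quotient.out (s := r) ⟦j⟧) u
    rw [← (key u).2 i, ← (key u).2 j, hij]
  intro g
  rw [(key g).2 i, (key g).2 j, hq]

end Pool.Agent.NH56.PA
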