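import Pool.Agent.R390.SF.Defs

/-!
# Potentially abelian integral systems
-/

set_option autoImplicit false

namespace Pool.Agent.NH56.PA

open Pool.Agent.R390.SF

/-- The system `T` is potentially abelian and semisimple at the prime numbers in `Λ`. -/
structure PotAbelian {F : SubFld ℚ} {n : ℕ} (Λ : Set ℕ) (T : IntegralSystem F n) : Prop where
  /-- `V_ℓ` is semisimple: every stable subspace has a stable complement -/
  semisimple : ∀ (ℓ : ℕ) [Fact ℓ.Prime], ℓ ∈ Λ → ∀ U : Submodule ℚ_[ℓ] (Fin n → ℚ_[ℓ]),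
    IsStable (T.rat ℓ) U →
      ∃ U' : Submodule ℚ_[ℓ] (Fin n → ℚ_[ℓ]), IsStable (T.rat ℓ) U' ∧ IsCompl U U'
  /-- an open subgroup `U` (which may depend on the system, but not on `ℓ`) acts on `T_ℓ` through an
  abelian group -/
  abelian : ∃ U : Subgroup F.fixingSubgroup, IsOpen (U : Set F.fixingSubgroup) ∧
    ∀ (ℓ : ℕ) [Fact ℓ.Prime], ℓ ∈ Λ → ∀ g ∈ U, ∀ h ∈ U,
      T.rho ℓ g * T.rho ℓ h = T.rho ℓ h * T.rho ℓ g

end Pool.Agent.NH56.PA
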