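import Pool.Agent.NH56.PA.Stm

/-!
# Project PA: simultaneous diagonalization
-/

set_option autoImplicit false

namespace Pool.Agent.NH56.PA

open Matrix Polynomial Pool.Agent.NH52.MB

namespace DiagP

/-- commuting semisimple endomorphisms over an algebraically closed field have a common eigenbasis -/
theorem exists_eigenbasis {L U : Type} [Field L] [IsAlgClosed L] (n : ℕ)
    (f : U → Module.End L (Fin n → L)) (hc : ∀ g h, Commute (f g) (f h))
    (hs : ∀ g, (f g).IsSemisimple) :
    ∃ (b : Module.Basis (Fin n) L (Fin n → L)) (c : Fin n → U → L), ∀ g i, f g (b i) = c i g • b i := by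
  classical
  have h1 : ⨆ χ : U → L, ⨅ i, (f i).maxGenEigenspace (χ i) = ⊤ :=
    Module.End.iSup_iInf_maxGenEigenspace_eq_top_of_iSup_maxGenEigenspace_eq_top_of_commute f
      (fun g h _ => hc g h) (fun g => Module.End.iSup_maxGenEigenspace_eq_top (f g))
  have h2 : iSupIndep fun χ : U → L => ⨅ i, (f i).maxGenEigenspace (χ i) :=
    Module.End.independent_iInf_maxGenEigenspace_of_forall_mapsTo f
      (fun i j φ => Module.End.mapsTo_maxGenEigenspace_of_comm (hc j i) φ)
  have h3 : DirectSum.IsInternal fun χ : U → L => ⨅ i, (f i).maxGenEigenspace (χ i) :=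
    DirectSum.isInternal_submodule_of_iSupIndep_of_iSup_eq_top h2 h1
  let v := fun χ : U → L => Module.Basis.ofVectorSpace L
    (⨅ i, (f i).maxGenEigenspace (χ i) : Submodule L (Fin n → L))
  let b0 := h3.collectedBasis v
  let e := b0.indexEquiv (Pi.basisFun L (Fin n))
  refine ⟨b0.reindex e, fun i g => (e.symm i).1 g, ?_⟩
  intro g i
  have hmem : b0 (e.symm i) ∈ ⨅ j, (f j).maxGenEigenspace ((e.symm i).1 j) :=
    h3.collectedBasis_mem v (e.symm i)
  have hmem2 : b0 (e.symm i) ∈ (f g).maxGenEigenspace ((e.symm i).1 g) :=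
    (Submodule.mem_iInf _).1 hmem g
  rw [(hs g).isFinitelySemisimple.maxGenEigenspace_eq_eigenspace] at hmem2
  have hmem3 := Module.End.mem_eigenspace_iff.1 hmem2
  rw [Module.Basis.reindex_apply]
  exact hmem3

theorem map_semisimple {K L : Type} [Field K] [CharZero K] [Field L] [Algebra K L] {n : ℕ}
    (X : Matrix (Fin n) (Fin n) K) (hX : Squarefree (minpoly K X)) :
    Module.End.IsSemisimple (Matrix.toLin' (X.map (algebraMap K L)) : Module.End L (Fin n → L)) := by
  have h1 : Squarefree ((minpoly K X).map (algebraMap K L)) :=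
    ((PerfectField.separable_iff_squarefree.mpr hX).map (f := algebraMap K L)).squarefree
  refine Module.End.isSemisimple_of_squarefree_aeval_eq_zero h1 ?_
  have h2 : aeval (X.map (algebraMap K L)) ((minpoly K X).map (algebraMap K L)) = 0 := by
    rw [Polynomial.aeval_map_algebraMap]
    have h3 : X.map (algebraMap K L) = (Algebra.ofId K L).mapMatrix X := rfl
    rw [h3, Polynomial.aeval_algHom_apply, minpoly.aeval, map_zero]
  have h4 : Matrix.toLin' (X.map (algebraMap K L)) =
      (Matrix.toLinAlgEquiv' (R := L) (n := Fin n)).toAlgHom (X.map (algebraMap K L)) := rfl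
  rw [h4, Polynomial.aeval_algHom_apply, h2, map_zero]

end DiagP

open DiagP in
theorem t_DIAG : S_DIAG := by
  intro U K L _ _ _ _ _ _ n ρ hcomm hsq
  classical
  let X : U → Matrix (Fin n) (Fin n) L := fun g =>
    (ρ g : Matrix (Fin n) (Fin n) K).map (algebraMap K L)
  have hX1 : X 1 = 1 := by
    change ((ρ 1 : GL (Fin n) K) : Matrix (Fin n) (Fin n) K).map (algebraMap K L) = 1
    rw [map_one, Units.val_one]
    exact Matrix.map_one _ (map_zero _) (map_one _)
  have hXm : ∀ g h, X (g * h) = X g * X h := by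
    intro g h
    change ((ρ (g * h) : GL (Fin n) K) : Matrix (Fin n) (Fin n) K).map (algebraMap K L) = _
    rw [map_mul, Units.val_mul, Matrix.map_mul]
  have hXc : ∀ g h, X g * X h = X h * X g := by
    intro g h
    rw [← hXm, ← hXm]
    change ((ρ (g * h) : GL (Fin n) K) : Matrix (Fin n) (Fin n) K).map (algebraMap K L) =
      ((ρ (h * g) : GL (Fin n) K) : Matrix (Fin n) (Fin n) K).map (algebraMap K L)
    rw [map_mul, map_mul, hcomm]
  obtain ⟨b, c, hb⟩ := exists_eigenbasis n
    (fun g => (Matrix.toLin' (X g) : Module.End L (Fin n → L)))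
    (fun g h => by
      change (Matrix.toLin' (X g)) ∘ₗ (Matrix.toLin' (X h)) =
        (Matrix.toLin' (X h)) ∘ₗ (Matrix.toLin' (X g))
      rw [← Matrix.toLin'_mul, ← Matrix.toLin'_mul, hXc])
    (fun g => map_semisimple _ (hsq g))
  have hb' : ∀ g i, X g *ᵥ (b i) = c i g • b i := by
    intro g i
    have := hb g i
    rwa [Matrix.toLin'_apply] at this
  have hc1 : ∀ i, c i 1 = 1 := by
    intro i
    have h := hb' 1 i
    rw [hX1, Matrix.one_mulVec] at h
    have h2 : (c i 1 - 1) • b i = 0 := by rw [sub_smul, ← h, one_smul, sub_self]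
    exact sub_eq_zero.1 ((smul_eq_zero.1 h2).resolve_right (b.ne_zero i))
  have hcm : ∀ i g h, c i (g * h) = c i g * c i h := by
    intro i g h
    have h1 := hb' (g * h) i
    rw [hXm, ← Matrix.mulVec_mulVec, hb' h i, Matrix.mulVec_smul, hb' g i, smul_smul] at h1
    have h2 : (c i (g * h) - c i g * c i h) • b i = 0 := by
      rw [sub_smul, ← h1, mul_comm (c i h), sub_self]
    exact sub_eq_zero.1 ((smul_eq_zero.1 h2).resolve_right (b.ne_zero i))
  let e := Pi.basisFun L (Fin n)
  let P : GL (Fin n) L := ⟨e.toMatrix b, b.toMatrix e, e.toMatrix_mul_toMatrix_flip b,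
    b.toMatrix_mul_toMatrix_flip e⟩
  refine ⟨P, fun i => ⟨⟨c i, hc1 i⟩, hcm i⟩, ?_⟩
  intro g
  have key : X g * (P : Matrix (Fin n) (Fin n) L) =
      (P : Matrix (Fin n) (Fin n) L) * Matrix.diagonal (fun i => c i g) := by
    ext i j
    rw [Matrix.mul_diagonal]
    have hP : ∀ i j, (P : Matrix (Fin n) (Fin n) L) i j = b j i := by
      intro i j
      change e.toMatrix b i j = _
      rw [Module.Basis.toMatrix_apply]
      simp [e]
    rw [Matrix.mul_apply, hP]
    have h := congrFun (hb' g j) i
    rw [Matrix.mulVec, dotProduct, Pi.smul_apply, smul_eq_mul, mul_comm] at h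
    rw [← h]
    exact Finset.sum_congr rfl fun k _ => by rw [hP]
  change X g = (P : Matrix (Fin n) (Fin n) L) * Matrix.diagonal (fun i => c i g) *
    ((P⁻¹ : GL (Fin n) L) : Matrix (Fin n) (Fin n) L)
  rw [← key, Matrix.mul_assoc, Units.mul_inv, Matrix.mul_one]

end Pool.Agent.NH56.PA
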