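import Pool.Agent.NH56.PA.Gal2
import Pool.Agent.NH56.PA.Def

/-!
# Finiteness of the potentially abelian integral systems
-/

set_option autoImplicit false
set_option linter.unusedSectionVars false

namespace Pool.Agent.NH56.PA

open Module Matrix Polynomial NumberField Pool.Agent.Y800 Pool.Agent.R390.SF
open Pool.Agent.R390.SF.IntegralSystem
open Pool.Agent.Y126.SH (exists_reps)

variable {F : SubFld ℚ} [hF : FiniteDimensional ℚ F] {n : ℕ}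

theorem exists_dat {Λ : Set ℕ} {T : IntegralSystem F n} (h : PotAbelian Λ T) :
    ∃ U₀ : Subgroup F.fixingSubgroup, Gal.Dat Λ T U₀ := by
  obtain ⟨U, hU, hc⟩ := h.abelian
  have hfin : U.FiniteIndex := by
    have : Finite (F.fixingSubgroup ⧸ U) := Subgroup.quotient_finite_of_isOpen _ hU
    exact Subgroup.finiteIndex_of_finite_quotient
  exact ⟨U.normalCore, Subgroup.normalCore_normal _, isOpen_core hU,
    fun ℓ _ hℓ W hW => h.semisimple ℓ hℓ W hW,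
    fun ℓ _ hℓ g hg k hk => hc ℓ hℓ g (Subgroup.normalCore_le _ hg) k (Subgroup.normalCore_le _ hk)⟩

/-- **Finiteness of the potentially abelian integral systems.** -/
theorem finiteness (hSS : S_SS) (hDI : S_DIAG) (hCHI : S_CHI) (hND1 : S_ND1) (hND2 : S_ND2)
    (hOP : S_OPEN) (hLAG : S_LAG) (hRAD : S_RAD) (hRET : S_RET) (hAVG : S_AVG) (hRSS : S_RSS)
    (hISO : S_ISO) (hn : 0 < n) (w : ℕ) (S : Finset ℕ) (Λ : Set ℕ) :
    ∃ (m : ℕ) (T : Fin m → IntegralSystem F n), (∀ i, (T i).GoodSystem S w ∧ PotAbelian Λ (T i)) ∧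
      ∀ T' : IntegralSystem F n, T'.GoodSystem S w ∧ PotAbelian Λ T' →
        ∃ i, IsomorphicOn Λ (T i) T' := by
  classical
  obtain ⟨𝒯, h𝒯, hdet⟩ := traces_of_finite (F := F) hn S
  have hpoly : ∀ T T' : IntegralSystem F n, T.GoodSystem S w → T'.GoodSystem S w →
      ((fun x : 𝒯 × Fin (n + 1) => (T.poly x.1).coeff x.2) =
        fun x : 𝒯 × Fin (n + 1) => (T'.poly x.1).coeff x.2) →
      ∀ 𝔭 ∈ 𝒯, T.poly 𝔭 = T'.poly 𝔭 := by
    intro T T' hT hT' heq 𝔭 h𝔭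
    obtain ⟨h1, p, hp, hpS, hp𝔭⟩ := h𝒯 𝔭 h𝔭
    ext i
    by_cases hi : i < n + 1
    · exact congrFun heq (⟨𝔭, h𝔭⟩, ⟨i, hi⟩)
    · rw [Polynomial.coeff_eq_zero_of_natDegree_lt, Polynomial.coeff_eq_zero_of_natDegree_lt]
      · rw [(hT'.good p hp hpS 𝔭 h1 hp𝔭).natDegree]
        omega
      · rw [(hT.good p hp hpS 𝔭 h1 hp𝔭).natDegree]
        omega
  refine exists_reps (fun T : IntegralSystem F n => T.GoodSystem S w ∧ PotAbelian Λ T)
    (fun T T' => IsomorphicOn Λ T T')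
    (fun T => fun x : 𝒯 × Fin (n + 1) => (T.poly x.1).coeff x.2) ?_ ?_
  · refine (Set.Finite.pi' (t := fun x : 𝒯 × Fin (n + 1) => Set.Icc
      (-((Nat.card (𝓞 F ⧸ (x.1 : Ideal (𝓞 F))) ^ w) ^ n * n.choose (n / 2) : ℕ) : ℤ)
      (((Nat.card (𝓞 F ⧸ (x.1 : Ideal (𝓞 F))) ^ w) ^ n * n.choose (n / 2) : ℕ) : ℤ))
      (fun p => Set.finite_Icc _ _)).subset ?_
    rintro _ ⟨T, hT, rfl⟩ x
    obtain ⟨h1, r, hr, hrS, h2⟩ := h𝒯 x.1 x.1.2
    exact abs_le.1 (coeff_bound hT.1 hr hrS h1 h2 x.2)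
  · rintro T0 ⟨hT0, hm0⟩
    obtain ⟨U₀, hD₀⟩ := exists_dat hm0
    obtain ⟨U, N', hUfin, hN'⟩ := Gal.exists_gen hSS hDI hCHI hND1 hND2 hOP hLAG hRAD hT0 hD₀
    let N : ℕ := max (max U.index N') n
    choose k c hk hc using local_code2 (Λ := Λ) (T0 := T0)
      (fun ℓ hℓ hΛ => fun W hW => hm0.semisimple ℓ hΛ W hW)
    obtain ⟨K, ⟨e⟩⟩ := Finite.exists_equiv_fin (∀ ℓ : Fin (N + 1), Fin (k ℓ))
    refine ⟨K, fun T => (e fun ℓ => ⟨c ℓ T, hk ℓ T⟩ : ℕ), fun T => Fin.is_lt _, ?_⟩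
    rintro T T' ⟨hT, hg⟩ ⟨hT', hg'⟩ hi hi' hcode ℓ hℓ hℓΛ
    have htr : ∀ T : IntegralSystem F n, T.GoodSystem S w →
        ((fun x : 𝒯 × Fin (n + 1) => (T.poly x.1).coeff x.2) =
          fun x : 𝒯 × Fin (n + 1) => (T0.poly x.1).coeff x.2) →
        ∀ (ℓ : ℕ) [Fact ℓ.Prime] (g : F.fixingSubgroup),
          (T.rat ℓ g : Matrix (Fin n) (Fin n) ℚ_[ℓ]).trace =
            (T0.rat ℓ g : Matrix (Fin n) (Fin n) ℚ_[ℓ]).trace := by
      intro T hT hi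
      refine hdet w w T T0 hT hT0 (fun p hp => ?_)
      rw [hpoly T T0 hT hT0 hi p hp]
    have key : ∀ T : IntegralSystem F n, T.GoodSystem S w → PotAbelian Λ T →
        ((fun x : 𝒯 × Fin (n + 1) => (T.poly x.1).coeff x.2) =
          fun x : 𝒯 × Fin (n + 1) => (T0.poly x.1).coeff x.2) →
        ∃ B : Matrix (Fin n) (Fin n) ℤ_[ℓ], Inter T0 T ℓ B := fun T hT hg hi =>
      exists_inter (fun W hW => hm0.semisimple ℓ hℓΛ W hW) (fun W hW => hg.semisimple ℓ hℓΛ W hW)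
        (htr T hT hi ℓ)
    have h1 := key T hT hg hi
    have h2 := key T' hT' hg' hi'
    by_cases hℓN : ℓ ≤ N
    · have h3 := e.injective (Fin.ext hcode)
      have h4 := congrFun h3 ⟨ℓ, Nat.lt_succ_of_le hℓN⟩
      exact hc ℓ T T' hℓΛ h1 h2 (congrArg Fin.val h4)
    · obtain ⟨B, hB, hBρ⟩ := h1
      obtain ⟨B', hB', hBρ'⟩ := h2
      rw [not_le] at hℓN
      simp only [N, max_lt_iff] at hℓN
      obtain ⟨⟨h3, h4⟩, h5⟩ := hℓN
      obtain ⟨u, f, a, b, hgen⟩ := hN' ℓ hℓΛ h4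
      have hi0 : ¬ ℓ ∣ U.index := fun hd =>
        absurd (Nat.le_of_dvd (Nat.pos_of_ne_zero hUfin.index_ne_zero) hd) (not_le.2 h3)
      obtain ⟨A, hA⟩ := Loc.uniq hRET hAVG hRSS hISO hUfin hi0 h5 hgen hB hBρ
      obtain ⟨A', hA'⟩ := Loc.uniq hRET hAVG hRSS hISO hUfin hi0 h5 hgen hB' hBρ'
      refine ⟨A' * A⁻¹, fun g => ?_⟩
      rw [hA, hA']
      group

end Pool.Agent.NH56.PA
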