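import Pool.Agent.NH56.PA.Loc
import Pool.Agent.R390.SF.PolMain

/-!
# Project PA: the algebra generated by an abelian subgroup of finite index
-/

set_option autoImplicit false
set_option linter.unusedSectionVars false

namespace Pool.Agent.NH56.PA

open Matrix Polynomial NumberField Pool.Agent.Y800 Pool.Agent.R390.SF Topology
open Pool.Agent.R390.SF.IntegralSystem Pool.Agent.NH52.MB

namespace Gal

variable {F : SubFld ℚ} [hF : FiniteDimensional ℚ F] {n : ℕ}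

open Classical in
/-- the number of distinct Frobenius eigenvalues is at least `t` infinitely often in `W` -/
def Has (T : IntegralSystem F n) (W : Subgroup F.fixingSubgroup) (t : ℕ) : Prop :=
  ∀ S' : Finset ℕ, ∃ p : ℕ, p.Prime ∧ p ∉ S' ∧ ∃ P : Ideal ZBar, P.IsMaximal ∧ (p : ZBar) ∈ P ∧
    ∃ σ : F.fixingSubgroup, σ ∈ W ∧ IsGeomFrob p P σ ∧
      t ≤ ((T.poly (P.under (𝓞 F))).aroots ℂ).toFinset.card

variable {S : Finset ℕ} {w : ℕ} {T : IntegralSystem F n} {Λ : Set ℕ}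

theorem has_mono {W W' : Subgroup F.fixingSubgroup} (h : W ≤ W') {t : ℕ} (ht : Has T W t) :
    Has T W' t := by
  intro S'
  obtain ⟨p, hp, hpS, P, hP, hpP, σ, hσW, hσ, hc⟩ := ht S'
  exact ⟨p, hp, hpS, P, hP, hpP, σ, h hσW, hσ, hc⟩

theorem has_anti {W : Subgroup F.fixingSubgroup} {t t' : ℕ} (h : t' ≤ t) (ht : Has T W t) :
    Has T W t' := by
  intro S'
  obtain ⟨p, hp, hpS, P, hP, hpP, σ, hσW, hσ, hc⟩ := ht S'
  exact ⟨p, hp, hpS, P, hP, hpP, σ, hσW, hσ, h.trans hc⟩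

theorem poly_props (hT : T.GoodSystem S w) {p : ℕ} (hp : p.Prime) (hpS : p ∉ S) {P : Ideal ZBar}
    (hP : P.IsMaximal) (hpP : (p : ZBar) ∈ P) {σ : F.fixingSubgroup} (hσ : IsGeomFrob p P σ) :
    (T.poly (P.under (𝓞 F))).Monic ∧ (T.poly (P.under (𝓞 F))).natDegree = n := by
  obtain ⟨ℓ, hℓ, hne⟩ : ∃ ℓ : ℕ, ℓ.Prime ∧ ℓ ≠ p := by
    by_cases h : p = 2
    · exact ⟨3, Nat.prime_three, by omega⟩
    · exact ⟨2, Nat.prime_two, fun h' => h h'.symm⟩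
  have : Fact ℓ.Prime := ⟨hℓ⟩
  have h1 := charpoly_frob_rat hT hp hpS hne hP hpP hσ
  have hinj : Function.Injective (Int.castRingHom ℚ_[ℓ]) := Int.cast_injective
  constructor
  · refine Polynomial.monic_of_injective hinj ?_
    rw [← h1]
    exact Matrix.charpoly_monic _
  · have h2 := congrArg Polynomial.natDegree h1
    rw [Polynomial.natDegree_map_eq_of_injective hinj, Matrix.charpoly_natDegree_eq_dim,
      Fintype.card_fin] at h2
    exact h2.symm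

theorem has_le (hT : T.GoodSystem S w) {W : Subgroup F.fixingSubgroup} {t : ℕ} (ht : Has T W t) :
    t ≤ n := by
  classical
  obtain ⟨p, hp, hpS, P, hP, hpP, σ, hσW, hσ, hc⟩ := ht S
  obtain ⟨h1, h2⟩ := poly_props hT hp hpS hP hpP hσ
  refine (hc.trans ?_).trans h2.le
  refine (Multiset.toFinset_card_le _).trans ?_
  refine (Polynomial.card_roots' _).trans ?_
  exact Polynomial.natDegree_map_le

/-- the data at the prime numbers in `Λ` -/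
structure Dat (Λ : Set ℕ) (T : IntegralSystem F n) (U₀ : Subgroup F.fixingSubgroup) : Prop where
  normal : U₀.Normal
  isOpen : IsOpen (U₀ : Set F.fixingSubgroup)
  semis : ∀ (ℓ : ℕ) [Fact ℓ.Prime], ℓ ∈ Λ → Sms (T.rat ℓ)
  comm : ∀ (ℓ : ℕ) [Fact ℓ.Prime], ℓ ∈ Λ → ∀ g ∈ U₀, ∀ h ∈ U₀,
    T.rho ℓ g * T.rho ℓ h = T.rho ℓ h * T.rho ℓ g

theorem sqf (hSS : S_SS) {U₀ : Subgroup F.fixingSubgroup} (hD : Dat Λ T U₀) {ℓ : ℕ}
    [Fact ℓ.Prime] (hℓ : ℓ ∈ Λ) {g : F.fixingSubgroup} (hg : g ∈ U₀) :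
    Squarefree (minpoly ℚ_[ℓ] (T.rat ℓ g : Matrix (Fin n) (Fin n) ℚ_[ℓ])) := by
  have := hD.normal
  refine hSS F.fixingSubgroup ℚ_[ℓ] n (T.rat ℓ) U₀ (hD.semis ℓ hℓ) (fun g hg h hh => ?_) g hg
  show Matrix.GeneralLinearGroup.map _ _ * Matrix.GeneralLinearGroup.map _ _ = _
  rw [← map_mul, hD.comm ℓ hℓ g hg h hh, map_mul]
  rfl

theorem cont_rat (hT : T.GoodSystem S w) (ℓ : ℕ) [Fact ℓ.Prime] :
    Continuous fun g => (T.rat ℓ g : Matrix (Fin n) (Fin n) ℚ_[ℓ]) := by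
  have h1 : (fun g => (T.rat ℓ g : Matrix (Fin n) (Fin n) ℚ_[ℓ])) =
      fun g => (T.rho ℓ g : Matrix (Fin n) (Fin n) ℤ_[ℓ]).map (fun x => (x : ℚ_[ℓ])) := rfl
  rw [h1]
  exact (hT.continuous ℓ).matrix_map continuous_subtype_val

theorem key1 (hSS : S_SS) (hND : S_ND1) (hOP : S_OPEN) (hT : T.GoodSystem S w)
    {U₀ : Subgroup F.fixingSubgroup} (hD : Dat Λ T U₀) {ℓ : ℕ} [Fact ℓ.Prime] (hℓ : ℓ ∈ Λ)
    {W : Subgroup F.fixingSubgroup} (hW : IsOpen (W : Set F.fixingSubgroup)) (hWU : W ≤ U₀)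
    {g : F.fixingSubgroup} (hg : g ∈ W) {t : ℕ}
    (ht : t ≤ (minpoly ℚ_[ℓ] (T.rat ℓ g : Matrix (Fin n) (Fin n) ℚ_[ℓ])).natDegree) : Has T W t := by
  classical
  intro S'
  by_contra hcon
  push Not at hcon
  let O : Set F.fixingSubgroup := (W : Set F.fixingSubgroup) ∩
    {h | t ≤ (minpoly ℚ_[ℓ] (T.rat ℓ h : Matrix (Fin n) (Fin n) ℚ_[ℓ])).natDegree}
  have hO : IsOpen O := hW.inter ((hOP ℓ n t).preimage (cont_rat hT ℓ))
  have h1 := closed_univ' Oᶜ hO.isClosed_compl (S ∪ S' ∪ {ℓ}) (fun p hp hpS P hP hpP σ hσ => by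
    rintro ⟨hσW, hσt⟩
    have hpS1 : p ∉ S := fun h => hpS (Finset.mem_union_left _ (Finset.mem_union_left _ h))
    have hpS2 : p ∉ S' := fun h => hpS (Finset.mem_union_left _ (Finset.mem_union_right _ h))
    have hpℓ : ℓ ≠ p := fun h => hpS (Finset.mem_union_right _ (Finset.mem_singleton.2 h.symm))
    have h2 := (hND ℚ_[ℓ] n (T.rat ℓ σ : Matrix (Fin n) (Fin n) ℚ_[ℓ]) _
      (poly_props hT hp hpS1 hP hpP hσ).1 (charpoly_frob_rat hT hp hpS1 hpℓ hP hpP hσ)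
      (sqf hSS hD hℓ (hWU hσW))).1
    have h3 := hcon p hp hpS2 P hP hpP σ hσW hσ
    have h4 : t ≤ (minpoly ℚ_[ℓ] (T.rat ℓ σ : Matrix (Fin n) (Fin n) ℚ_[ℓ])).natDegree := hσt
    rw [h2] at h4
    exact absurd h4 (not_le.2 h3)) g
  exact h1 ⟨hg, ht⟩

theorem key2 (hSS : S_SS) (hND : S_ND1) (hT : T.GoodSystem S w)
    {U₀ : Subgroup F.fixingSubgroup} (hD : Dat Λ T U₀) {ℓ : ℕ} [Fact ℓ.Prime] (hℓ : ℓ ∈ Λ)
    {W : Subgroup F.fixingSubgroup} (hWU : W ≤ U₀) {t : ℕ} (ht : Has T W t) :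
    ∃ v ∈ W, t ≤ (minpoly ℚ_[ℓ] (T.rat ℓ v : Matrix (Fin n) (Fin n) ℚ_[ℓ])).natDegree := by
  classical
  obtain ⟨p, hp, hpS, P, hP, hpP, σ, hσW, hσ, hc⟩ := ht (S ∪ {ℓ})
  have hpS1 : p ∉ S := fun h => hpS (Finset.mem_union_left _ h)
  have hpℓ : ℓ ≠ p := fun h => hpS (Finset.mem_union_right _ (Finset.mem_singleton.2 h.symm))
  have h2 := (hND ℚ_[ℓ] n (T.rat ℓ σ : Matrix (Fin n) (Fin n) ℚ_[ℓ]) _
    (poly_props hT hp hpS1 hP hpP hσ).1 (charpoly_frob_rat hT hp hpS1 hpℓ hP hpP hσ)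
    (sqf hSS hD hℓ (hWU hσW))).1
  refine ⟨σ, hσW, ?_⟩
  rw [h2]
  convert hc

theorem has_zero {W : Subgroup F.fixingSubgroup} (hW : IsOpen (W : Set F.fixingSubgroup)) :
    Has T W 0 := by
  intro S'
  by_contra hcon
  push Not at hcon
  have h1 := closed_univ' (W : Set F.fixingSubgroup)ᶜ hW.isClosed_compl S'
    (fun p hp hpS P hP hpP σ hσ hσW =>
      absurd (Nat.zero_le _) (not_le.2 (hcon p hp hpS P hP hpP σ hσW hσ))) 1
  exact h1 W.one_mem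

theorem exists_level (hT : T.GoodSystem S w) {W : Subgroup F.fixingSubgroup}
    (hW : IsOpen (W : Set F.fixingSubgroup)) : ∃ s, Has T W s ∧ ¬ Has T W (s + 1) := by
  classical
  have h : ∃ s, ¬ Has T W (s + 1) := ⟨n, fun h => absurd (has_le hT h) (by omega)⟩
  refine ⟨Nat.find h, ?_, Nat.find_spec h⟩
  by_cases h0 : Nat.find h = 0
  · rw [h0]
    exact has_zero hW
  · have h1 := Nat.find_min h (m := Nat.find h - 1) (by omega)
    rw [not_not, Nat.sub_add_cancel (Nat.pos_of_ne_zero h0)] at h1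
    exact h1

/-- a subgroup with the minimal number of eigenvalues -/
theorem exists_min (hT : T.GoodSystem S w) {U₀ : Subgroup F.fixingSubgroup}
    (hD : Dat Λ T U₀) : ∃ (U : Subgroup F.fixingSubgroup) (s : ℕ), Dat Λ T U ∧
      Has T U s ∧ ¬ Has T U (s + 1) ∧
      ∀ W : Subgroup F.fixingSubgroup, IsOpen (W : Set F.fixingSubgroup) → W.Normal → W ≤ U →
        Has T W s := by
  classical
  have hex : ∃ s, ∃ U : Subgroup F.fixingSubgroup, Dat Λ T U ∧ Has T U s ∧ ¬ Has T U (s + 1) := by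
    obtain ⟨s, h1, h2⟩ := exists_level hT hD.isOpen
    exact ⟨s, U₀, hD, h1, h2⟩
  obtain ⟨U, hU, h1, h2⟩ := Nat.find_spec hex
  refine ⟨U, Nat.find hex, hU, h1, h2, fun W hW hWn hWU => ?_⟩
  obtain ⟨s, h3, h4⟩ := exists_level hT hW
  have h5 : Nat.find hex ≤ s := Nat.find_min' hex ⟨W, ⟨hWn, hW, hU.semis,
    fun ℓ _ hℓ g hg h hh => hU.comm ℓ hℓ g (hWU hg) h (hWU hh)⟩, h3, h4⟩
  exact has_anti h5 h3

end Gal

end Pool.Agent.NH56.PA
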