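import Pool.Agent.NH56.PA.Gal

/-!
# Project PA: almost all primes
-/

set_option autoImplicit false
set_option linter.unusedSectionVars false

namespace Pool.Agent.NH56.PA

open Matrix Polynomial NumberField Pool.Agent.Y800 Pool.Agent.R390.SF Topology
open Pool.Agent.R390.SF.IntegralSystem Pool.Agent.NH52.MB

namespace Gal

variable {F : SubFld ℚ} [hF : FiniteDimensional ℚ F] {n : ℕ}

variable {S : Finset ℕ} {w : ℕ} {T : IntegralSystem F n} {Λ : Set ℕ}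

/-- a linear condition is closed -/
theorem closed_lin (hT : T.GoodSystem S w) (ℓ : ℕ) [Fact ℓ.Prime] {E : Type} [AddCommGroup E]
    [Module ℚ_[ℓ] E] (L : Matrix (Fin n) (Fin n) ℚ_[ℓ] →ₗ[ℚ_[ℓ]] E) :
    IsClosed {g : F.fixingSubgroup | L (T.rat ℓ g : Matrix (Fin n) (Fin n) ℚ_[ℓ]) = 0} :=
  (Submodule.closed_of_finiteDimensional (LinearMap.ker L)).preimage (cont_rat hT ℓ)

/-- the entries of the conjugate by `P` -/
noncomputable def ent {K L : Type} [Field K] [Field L] [Algebra K L] (P P' : Matrix (Fin n) (Fin n) L)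
    (i : Fin n) : Matrix (Fin n) (Fin n) K →ₗ[K] L where
  toFun M := (P' * M.map (algebraMap K L) * P) i i
  map_add' M N := by
    rw [Matrix.map_add _ (fun a b => map_add _ a b), mul_add, add_mul]
    rfl
  map_smul' c M := by
    have h : (c • M).map (algebraMap K L) = algebraMap K L c • M.map (algebraMap K L) := by
      ext a b
      show algebraMap K L (c * M a b) = algebraMap K L c * algebraMap K L (M a b)
      exact map_mul _ _ _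
    rw [h, Matrix.mul_smul, Matrix.smul_mul, Matrix.smul_apply, smul_eq_mul, ← Algebra.smul_def]
    rfl

theorem comm_rat {U : Subgroup F.fixingSubgroup}
    (hD : Dat Λ T U) {ℓ : ℕ} [Fact ℓ.Prime] (hℓ : ℓ ∈ Λ) (g h : U) :
    ((T.rat ℓ).comp U.subtype) g * ((T.rat ℓ).comp U.subtype) h =
      ((T.rat ℓ).comp U.subtype) h * ((T.rat ℓ).comp U.subtype) g := by
  have h1 := hD.comm ℓ hℓ g g.2 h h.2
  have h2 := congrArg (Matrix.GeneralLinearGroup.map (n := Fin n) (algebraMap ℤ_[ℓ] ℚ_[ℓ])) h1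
  rw [map_mul, map_mul] at h2
  exact h2

theorem in_alg (hSS : S_SS) (hDI : S_DIAG) (hCHI : S_CHI) (hND1 : S_ND1) (hND2 : S_ND2)
    (hOP : S_OPEN) (hLAG : S_LAG) (hT : T.GoodSystem S w) {U : Subgroup F.fixingSubgroup}
    (hD : Dat Λ T U) {s : ℕ} (hs' : ¬ Has T U (s + 1))
    (hmin : ∀ W : Subgroup F.fixingSubgroup, IsOpen (W : Set F.fixingSubgroup) → W.Normal → W ≤ U →
        Has T W s) {ℓ : ℕ} [Fact ℓ.Prime] (hℓ : ℓ ∈ Λ) {u : F.fixingSubgroup} (hu : u ∈ U)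
    (hus : s ≤ (minpoly ℚ_[ℓ] (T.rat ℓ u : Matrix (Fin n) (Fin n) ℚ_[ℓ])).natDegree)
    {g : F.fixingSubgroup} (hg : g ∈ U) :
    ∃ h : ℚ_[ℓ][X], (T.rat ℓ g : Matrix (Fin n) (Fin n) ℚ_[ℓ]) =
      aeval (T.rat ℓ u : Matrix (Fin n) (Fin n) ℚ_[ℓ]) h := by
  classical
  let L := AlgebraicClosure ℚ_[ℓ]
  obtain ⟨P, χ, hχ⟩ := hDI U ℚ_[ℓ] L n ((T.rat ℓ).comp U.subtype) (comm_rat hD hℓ) (fun g => sqf hSS hD hℓ g.2)
  have hnd : ∀ g : U, (minpoly ℚ_[ℓ] (T.rat ℓ g : Matrix (Fin n) (Fin n) ℚ_[ℓ])).natDegree =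
      (Finset.univ.image fun i => χ i g).card := fun g =>
    (hND2 ℚ_[ℓ] L n _ P (fun i => χ i g) (hχ g)).trans (by congr)
  have hent : ∀ (i : Fin n) (g : U), χ i g = ent (K := ℚ_[ℓ]) (P : Matrix (Fin n) (Fin n) L)
      ((P⁻¹ : GL (Fin n) L) : Matrix (Fin n) (Fin n) L) i
        (T.rat ℓ g : Matrix (Fin n) (Fin n) ℚ_[ℓ]) := by
    intro i g
    show χ i g = ((((P⁻¹ : GL (Fin n) L) : Matrix (Fin n) (Fin n) L) *
      (T.rat ℓ g : Matrix (Fin n) (Fin n) ℚ_[ℓ]).map (algebraMap ℚ_[ℓ] L) *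
      (P : Matrix (Fin n) (Fin n) L) : Matrix (Fin n) (Fin n) L)) i i
    have h1 := hχ g
    have h2 : (T.rat ℓ g : Matrix (Fin n) (Fin n) ℚ_[ℓ]).map (algebraMap ℚ_[ℓ] L) =
      P * Matrix.diagonal (fun i => χ i g) * (P⁻¹ : GL (Fin n) L) := h1
    have h3 : ((P⁻¹ : GL (Fin n) L) : Matrix (Fin n) (Fin n) L) * (P : Matrix (Fin n) (Fin n) L) =
        1 := by rw [← Units.val_mul, inv_mul_cancel, Units.val_one]
    rw [h2, mul_assoc, mul_assoc, mul_assoc, h3, mul_one, ← mul_assoc, h3, one_mul,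
      Matrix.diagonal_apply_eq]
  have hc := hCHI U L n s χ (fun g => ?_) (fun W I hWf hWI => ?_) ⟨u, hu⟩ ?_
  · have h4 := hLAG ℚ_[ℓ] L n (T.rat ℓ u : Matrix (Fin n) (Fin n) ℚ_[ℓ])
      (T.rat ℓ g : Matrix (Fin n) (Fin n) ℚ_[ℓ]) P (fun i => χ i ⟨u, hu⟩) (fun i => χ i ⟨g, hg⟩)
      (hχ ⟨u, hu⟩) (hχ ⟨g, hg⟩) (fun i j hij => hc i j hij ⟨g, hg⟩)
    exact h4
  · by_contra hlt
    rw [not_le] at hlt
    refine hs' (key1 hSS hND1 hOP hT hD hℓ hD.isOpen le_rfl g.2 (t := s + 1) ?_)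
    rw [hnd g]
    exact hlt
  · -- `W` is open
    have hWcl : IsClosed (W : Set U) := by
      have h1 : (W : Set U) = ⋂ p ∈ I, (Subtype.val : U → F.fixingSubgroup) ⁻¹'
          {g | (ent (K := ℚ_[ℓ]) (P : Matrix (Fin n) (Fin n) L)
            ((P⁻¹ : GL (Fin n) L) : Matrix (Fin n) (Fin n) L) p.1 -
              ent (K := ℚ_[ℓ]) (P : Matrix (Fin n) (Fin n) L)
            ((P⁻¹ : GL (Fin n) L) : Matrix (Fin n) (Fin n) L) p.2)
              (T.rat ℓ g : Matrix (Fin n) (Fin n) ℚ_[ℓ]) = 0} := by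
        ext g
        simp only [Set.mem_iInter, Set.mem_preimage, Set.mem_ofPred_eq, SetLike.mem_coe]
        rw [hWI g]
        refine forall₂_congr fun p hp => ?_
        rw [LinearMap.sub_apply, sub_eq_zero, ← hent, ← hent]
      rw [h1]
      exact isClosed_biInter fun p _ => (closed_lin hT ℓ _).preimage continuous_subtype_val
    have hWop : IsOpen (W : Set U) := Subgroup.isOpen_of_isClosed_of_finiteIndex W hWcl
    have hW'op : IsOpen ((W.map U.subtype : Subgroup F.fixingSubgroup) : Set F.fixingSubgroup) := by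
      rw [Subgroup.coe_map]
      exact (hD.isOpen.isOpenMap_subtype_val) _ hWop
    have hfin : (W.map U.subtype).FiniteIndex := by
      have : Finite (F.fixingSubgroup ⧸ W.map U.subtype) := Subgroup.quotient_finite_of_isOpen _ hW'op
      exact Subgroup.finiteIndex_of_finite_quotient
    have h2 := hmin (W.map U.subtype).normalCore (isOpen_core hW'op)
      (Subgroup.normalCore_normal _) ((Subgroup.normalCore_le _).trans (Subgroup.map_subtype_le _))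
    obtain ⟨v, hv, hvs⟩ := key2 hSS hND1 hT hD hℓ
      ((Subgroup.normalCore_le _).trans (Subgroup.map_subtype_le _)) h2
    obtain ⟨v', hv', rfl⟩ := (Subgroup.normalCore_le _) hv
    refine ⟨v', hv', ?_⟩
    have h3 := hnd v'
    have h4 : s ≤ (minpoly ℚ_[ℓ] (T.rat ℓ v' : Matrix (Fin n) (Fin n) ℚ_[ℓ])).natDegree := hvs
    rw [h3] at h4
    convert h4
  · have h3 := hnd ⟨u, hu⟩
    have h4 : s ≤ (minpoly ℚ_[ℓ] (T.rat ℓ (⟨u, hu⟩ : U) : Matrix (Fin n) (Fin n) ℚ_[ℓ])).natDegree := hus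
    rw [h3] at h4
    convert h4

theorem clear_poly {ℓ : ℕ} [hℓ : Fact ℓ.Prime] (h : ℚ_[ℓ][X]) : ∃ (m : ℕ) (h' : ℤ_[ℓ][X]),
    h'.map (algebraMap ℤ_[ℓ] ℚ_[ℓ]) = C ((ℓ : ℚ_[ℓ]) ^ m) * h := by
  induction h using Polynomial.induction_on' with
  | add p q hp hq =>
    obtain ⟨m, p', hp'⟩ := hp
    obtain ⟨k, q', hq'⟩ := hq
    refine ⟨m + k, C ((ℓ : ℤ_[ℓ]) ^ k) * p' + C ((ℓ : ℤ_[ℓ]) ^ m) * q', ?_⟩
    have e1 : ∀ j : ℕ, algebraMap ℤ_[ℓ] ℚ_[ℓ] ((ℓ : ℤ_[ℓ]) ^ j) = (ℓ : ℚ_[ℓ]) ^ j := fun j => by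
      rw [map_pow, map_natCast]
    have e2 : (C ((ℓ : ℚ_[ℓ]) ^ (m + k)) : ℚ_[ℓ][X]) = C ((ℓ : ℚ_[ℓ]) ^ m) * C ((ℓ : ℚ_[ℓ]) ^ k) := by
      rw [pow_add, C_mul]
    rw [Polynomial.map_add, Polynomial.map_mul, Polynomial.map_mul, hp', hq', Polynomial.map_C,
      Polynomial.map_C, e1, e1, e2]
    generalize (C ((ℓ : ℚ_[ℓ]) ^ m) : ℚ_[ℓ][X]) = x
    generalize (C ((ℓ : ℚ_[ℓ]) ^ k) : ℚ_[ℓ][X]) = y
    ring
  | monomial k c =>
    obtain ⟨s, Q, hQ⟩ := exists_scale (n := 1) (fun _ _ => c : Matrix (Fin 1) (Fin 1) ℚ_[ℓ])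
    refine ⟨s, monomial k (Q 0 0), ?_⟩
    have h1 := congrFun (congrFun hQ 0) 0
    have h2 : algebraMap ℤ_[ℓ] ℚ_[ℓ] (Q 0 0) = (ℓ : ℚ_[ℓ]) ^ s * c := h1
    rw [Polynomial.map_monomial, h2, Polynomial.C_mul_monomial]

theorem qm_aeval {ℓ : ℕ} [hℓ : Fact ℓ.Prime] (x : Matrix (Fin n) (Fin n) ℤ_[ℓ]) (p : ℤ_[ℓ][X]) :
    qm (aeval x p) = aeval (qm x) (p.map (algebraMap ℤ_[ℓ] ℚ_[ℓ])) := by
  induction p using Polynomial.induction_on' with
  | add p q hp hq => rw [map_add, map_add, Polynomial.map_add, map_add, hp, hq]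
  | monomial k c =>
    rw [aeval_monomial, Polynomial.map_monomial, aeval_monomial, map_mul, map_pow,
      Algebra.algebraMap_eq_smul_one, Algebra.algebraMap_eq_smul_one, qm_smul, map_one]

/-- **the structure at almost all primes** -/
theorem exists_gen (hSS : S_SS) (hDI : S_DIAG) (hCHI : S_CHI) (hND1 : S_ND1) (hND2 : S_ND2)
    (hOP : S_OPEN) (hLAG : S_LAG) (hRAD : S_RAD) (hT : T.GoodSystem S w)
    {U₀ : Subgroup F.fixingSubgroup} (hD₀ : Dat Λ T U₀) :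
    ∃ (U : Subgroup F.fixingSubgroup) (N : ℕ), U.FiniteIndex ∧ ∀ (ℓ : ℕ) [Fact ℓ.Prime], ℓ ∈ Λ →
      N < ℓ → ∃ (u : F.fixingSubgroup) (f a b : ℤ_[ℓ][X]), Loc.Gen (T.rho ℓ) U u f a b := by
  classical
  obtain ⟨U, s, hD, hs, hs', hmin⟩ := exists_min hT hD₀
  obtain ⟨p, hp, hpS, P, hP, hpP, u, huU, hu, hc⟩ := hs S
  obtain ⟨hm, hd⟩ := poly_props hT hp hpS hP hpP hu
  obtain ⟨f, a, b, D, hD0, hfz, hfab⟩ := hRAD _ hm
  have hfin : U.FiniteIndex := by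
    have : Finite (F.fixingSubgroup ⧸ U) := Subgroup.quotient_finite_of_isOpen _ hD.isOpen
    exact Subgroup.finiteIndex_of_finite_quotient
  refine ⟨U, max p D.natAbs, hfin, ?_⟩
  intro ℓ hℓF hℓ hlt
  rw [max_lt_iff] at hlt
  have hpℓ : ℓ ≠ p := by omega
  have hnd := hND1 ℚ_[ℓ] n (T.rat ℓ u : Matrix (Fin n) (Fin n) ℚ_[ℓ]) _ hm
    (charpoly_frob_rat hT hp hpS hpℓ hP hpP hu) (sqf hSS hD hℓ huU)
  have hus : s ≤ (minpoly ℚ_[ℓ] (T.rat ℓ u : Matrix (Fin n) (Fin n) ℚ_[ℓ])).natDegree := by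
    rw [hnd.1]
    convert hc
  -- `D` is a unit
  have hDu : IsUnit ((D : ℤ) : ℤ_[ℓ]) := by
    rw [PadicInt.isUnit_iff]
    refine le_antisymm (PadicInt.norm_le_one _) ?_
    by_contra hlt'
    rw [not_le, PadicInt.norm_int_lt_one_iff_dvd] at hlt'
    have h1 := Int.natAbs_dvd_natAbs.2 hlt'
    rw [Int.natAbs_natCast] at h1
    have h2 := Nat.le_of_dvd (Int.natAbs_pos.2 hD0) h1
    omega
  obtain ⟨v, hv⟩ := hDu.exists_right_inv
  refine ⟨u, f.map (Int.castRingHom ℤ_[ℓ]), C v * a.map (Int.castRingHom ℤ_[ℓ]),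
    C v * b.map (Int.castRingHom ℤ_[ℓ]), huU, ?_, ?_, ?_⟩
  · have h1 := congrArg (Polynomial.map (Int.castRingHom ℤ_[ℓ])) hfab
    rw [Polynomial.map_add, Polynomial.map_mul, Polynomial.map_mul, Polynomial.map_C,
      ← Polynomial.derivative_map] at h1
    have h2 : C v * C ((Int.castRingHom ℤ_[ℓ]) D) = (1 : ℤ_[ℓ][X]) := by
      rw [← C_mul, mul_comm v]
      have h3 : (Int.castRingHom ℤ_[ℓ]) D * v = 1 := hv
      rw [h3, C_1]
    rw [← h2, ← h1]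
    ring
  · refine qm_inj ?_
    rw [qm_aeval, map_zero, Polynomial.map_map]
    have h1 := hnd.2 f hfz
    have h2 : (algebraMap ℤ_[ℓ] ℚ_[ℓ]).comp (Int.castRingHom ℤ_[ℓ]) = Int.castRingHom ℚ_[ℓ] :=
      RingHom.ext_int _ _
    rw [h2]
    exact h1
  · intro g hg
    obtain ⟨h, hh⟩ := in_alg hSS hDI hCHI hND1 hND2 hOP hLAG hT hD hs' hmin hℓ huU hus hg
    obtain ⟨m, h', hh'⟩ := clear_poly h
    refine ⟨m, h', qm_inj ?_⟩
    rw [qm_smul, qm_aeval, hh', map_mul, aeval_C, map_pow, map_natCast,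
      Algebra.algebraMap_eq_smul_one, smul_mul_assoc, one_mul]
    have h1 : qm (T.rho ℓ g : Matrix (Fin n) (Fin n) ℤ_[ℓ]) =
      aeval (qm (T.rho ℓ u : Matrix (Fin n) (Fin n) ℤ_[ℓ])) h := hh
    rw [h1]

end Gal

end Pool.Agent.NH56.PA
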