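import Pool.Agent.NH56.PA.Stm
import Pool.Agent.NH52.MB.Bnl

/-!
# Project PA: the lattices are isomorphic
-/

set_option autoImplicit false

namespace Pool.Agent.NH56.PA

open Matrix Polynomial Pool.Agent.NH52.MB Module

namespace Iso

open scoped MonoidAlgebra

variable {G : Type} [Group G] {n : ℕ} {k : Type} [Field k]

/-- the representation on the space of the column vectors -/
noncomputable def rp (ρ : G →* GL (Fin n) k) : Representation k G (Fin n → k) where
  toFun g := Matrix.toLin' (ρ g : Matrix (Fin n) (Fin n) k)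
  map_one' := by rw [map_one, Units.val_one, Matrix.toLin'_one]; rfl
  map_mul' g h := by rw [map_mul, Units.val_mul, Matrix.toLin'_mul]; rfl

theorem semis_module {ρ : G →* GL (Fin n) k} (h : Sms ρ) :
    IsSemisimpleModule k[G] (rp ρ).asModule := by
  rw [← Representation.isSemisimpleRepresentation_iff_isSemisimpleModule_asModule]
  refine ⟨fun W => ?_⟩
  obtain ⟨U', hU', hc⟩ := h W.toSubmodule (fun g u hu => W.apply_mem_toSubmodule g hu)
  refine ⟨⟨U', fun g v hv => hU' g v hv⟩, ?_⟩
  rw [isCompl_iff, disjoint_iff, codisjoint_iff] at hc ⊢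
  constructor
  · apply Subrepresentation.toSubmodule_injective
    exact hc.1
  · apply Subrepresentation.toSubmodule_injective
    exact hc.2

theorem tr_asModule (ρ : G →* GL (Fin n) k) (ρ' : G →* GL (Fin n) k)
    (ht : ∀ g, (ρ g : Matrix (Fin n) (Fin n) k).trace = (ρ' g : Matrix (Fin n) (Fin n) k).trace)
    (a : k[G]) : tr k (rp ρ).asModule a = tr k (rp ρ').asModule a := by
  have key : ∀ (ρ : G →* GL (Fin n) k) (g : G) (t : k),
      tr k (rp ρ).asModule (MonoidAlgebra.single g t) =
        t * (ρ g : Matrix (Fin n) (Fin n) k).trace := by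
    intro ρ g t
    unfold tr
    have h1 : Algebra.lsmul k k (rp ρ).asModule (MonoidAlgebra.single g t) =
        t • (Matrix.toLin' (ρ g : Matrix (Fin n) (Fin n) k) : (Fin n → k) →ₗ[k] (Fin n → k)) := by
      ext1 v
      exact Representation.single_smul _ _ _ _
    rw [h1]
    have h2 : LinearMap.trace k (Fin n → k) (t • (Matrix.toLin'
        (ρ g : Matrix (Fin n) (Fin n) k))) = t * (ρ g : Matrix (Fin n) (Fin n) k).trace := by
      rw [map_smul, Matrix.trace_toLin'_eq, smul_eq_mul]
    exact h2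
  induction a using MonoidAlgebra.induction_linear with
  | zero => unfold tr; simp
  | add x y hx hy =>
    have hadd : ∀ ρ : G →* GL (Fin n) k, tr k (rp ρ).asModule (x + y) =
        tr k (rp ρ).asModule x + tr k (rp ρ).asModule y := by
      intro ρ
      unfold tr
      rw [map_add, map_add]
    rw [hadd, hadd, hx, hy]
  | single g t => rw [key, key, ht]

/-- **Semisimple representations with the same traces are isomorphic.** -/
theorem bn_ss (hm : ∀ m : ℕ, 0 < m → m ≤ n → (m : k) ≠ 0) {ρ ρ' : G →* GL (Fin n) k} (h : Sms ρ)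
    (h' : Sms ρ')
    (ht : ∀ g, (ρ g : Matrix (Fin n) (Fin n) k).trace = (ρ' g : Matrix (Fin n) (Fin n) k).trace) :
    ∃ A : GL (Fin n) k, ∀ g, (ρ' g : Matrix (Fin n) (Fin n) k) * A = A * ρ g := by
  have := semis_module h
  have := semis_module h'
  have hf : ∀ ρ : G →* GL (Fin n) k, finrank k (rp ρ).asModule = n := by
    intro ρ
    change finrank k (Fin n → k) = n
    exact Module.finrank_fin_fun k
  obtain ⟨e⟩ := t_BNL k k[G] (rp ρ).asModule (rp ρ').asModule (by rw [hf]; exact hm)
    (by rw [hf, hf]) (tr_asModule ρ ρ' ht)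
  let e' : (Fin n → k) ≃ₗ[k] (Fin n → k) := e.restrictScalars k
  have he : ∀ (g : G) (v : Fin n → k), e' ((ρ g : Matrix (Fin n) (Fin n) k).mulVec v) =
      (ρ' g : Matrix (Fin n) (Fin n) k).mulVec (e' v) := by
    intro g v
    have h0 : ∀ (r : Representation k G (Fin n → k)) (x : r.asModule),
        MonoidAlgebra.single g (1 : k) • x = r g (r.asModuleEquiv x) := by
      intro r x
      rw [Representation.single_smul, one_smul]
    have h1 : e (MonoidAlgebra.single g (1 : k) • ((rp ρ).asModuleEquiv.symm v)) =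
        MonoidAlgebra.single g (1 : k) • e ((rp ρ).asModuleEquiv.symm v) := e.map_smul _ _
    rw [h0 (rp ρ), h0 (rp ρ')] at h1
    exact h1
  have h1 : IsUnit (LinearMap.toMatrix' (e' : (Fin n → k) →ₗ[k] (Fin n → k))) := by
    refine ⟨⟨LinearMap.toMatrix' (e' : (Fin n → k) →ₗ[k] (Fin n → k)),
      LinearMap.toMatrix' (e'.symm : (Fin n → k) →ₗ[k] (Fin n → k)), ?_, ?_⟩, rfl⟩
    · rw [← LinearMap.toMatrix'_comp]
      simp
    · rw [← LinearMap.toMatrix'_comp]
      simp
  obtain ⟨A, hA⟩ := h1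
  refine ⟨A, fun g => ?_⟩
  rw [hA]
  apply Matrix.toLin'.injective
  rw [Matrix.toLin'_mul, Matrix.toLin'_mul, Matrix.toLin'_toMatrix']
  exact LinearMap.ext fun v => (he g v).symm

theorem val_map {R : Type} [CommRing R] (φ : R →+* k) (ρ : G →* GL (Fin n) R) (g : G) :
    ((((Matrix.GeneralLinearGroup.map φ).comp ρ) g : GL (Fin n) k) : Matrix (Fin n) (Fin n) k) =
      (ρ g : Matrix (Fin n) (Fin n) R).map φ := rfl

end Iso

theorem t_ISO : S_ISO := by
  intro G R k _ _ _ φ hφ hloc n ρ₁ ρ₂ hm hs₁ hs₂ ht r A B hR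
  obtain ⟨Mb, hMb⟩ := Iso.bn_ss hm hs₂ hs₁ (fun g => by
    rw [Iso.val_map, Iso.val_map]
    have h1 : ∀ X : Matrix (Fin n) (Fin n) R, (X.map φ).trace = φ X.trace := by
      intro X
      simp [Matrix.trace, map_sum]
    rw [h1, h1, ht])
  choose lft hlft using hφ
  let M : Matrix (Fin n) (Fin n) R := (Mb : Matrix (Fin n) (Fin n) k).map lft
  have hM : M.map φ = (Mb : Matrix (Fin n) (Fin n) k) := by
    ext i j
    simp [M, hlft]
  have hN : (op A B M).map φ = (Mb : Matrix (Fin n) (Fin n) k) := by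
    rw [hR.res M fun g _ => ?_, hM]
    rw [hM]
    exact hMb g
  have hdet : IsUnit (op A B M).det := by
    have h1 : φ (op A B M).det = (Mb : Matrix (Fin n) (Fin n) k).det := by
      rw [RingHom.map_det, RingHom.mapMatrix_apply, hN]
    have h2 : IsUnit (φ (op A B M).det) := by
      rw [h1]
      exact (Matrix.isUnit_iff_isUnit_det _).1 Mb.isUnit
    exact isUnit_of_map_unit φ _ h2
  obtain ⟨C, hC⟩ := (Matrix.isUnit_iff_isUnit_det _).2 hdet
  refine ⟨C, fun g => ?_⟩
  rw [eq_mul_inv_iff_mul_eq]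
  apply Units.ext
  rw [Units.val_mul, Units.val_mul, hC]
  exact hR.inter M g (Subgroup.mem_top g)

end Pool.Agent.NH56.PA
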