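import Pool.Agent.NH56.PA.Stm

/-!
# PA-LAG: interpolation and descent
-/

set_option autoImplicit false

namespace Pool.Agent.NH56.PA

namespace LAG

open Matrix Polynomial

/-- powers of a conjugated diagonal matrix -/
theorem pow_conj {L : Type} [Field L] {n : ℕ} (P : GL (Fin n) L) (d : Fin n → L) (j : ℕ) :
    ((P : Matrix (Fin n) (Fin n) L) * Matrix.diagonal d * (P⁻¹ : GL (Fin n) L)) ^ j =
      P * Matrix.diagonal (fun i => d i ^ j) * (P⁻¹ : GL (Fin n) L) := by
  have hPP : ((P⁻¹ : GL (Fin n) L) : Matrix (Fin n) (Fin n) L) * P = 1 := by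
    rw [← Units.val_mul, inv_mul_cancel, Units.val_one]
  induction j with
  | zero => simp
  | succ j ih =>
    rw [pow_succ, ih]
    calc (P : Matrix (Fin n) (Fin n) L) * Matrix.diagonal (fun i => d i ^ j) *
          (P⁻¹ : GL (Fin n) L) * (P * Matrix.diagonal d * (P⁻¹ : GL (Fin n) L))
        = P * (Matrix.diagonal (fun i => d i ^ j) *
          (((P⁻¹ : GL (Fin n) L) : Matrix (Fin n) (Fin n) L) * P) * Matrix.diagonal d) *
          (P⁻¹ : GL (Fin n) L) := by simp only [mul_assoc]
      _ = P * Matrix.diagonal (fun i => d i ^ (j + 1)) * (P⁻¹ : GL (Fin n) L) := by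
          rw [hPP, mul_one, Matrix.diagonal_mul_diagonal]
          simp only [pow_succ]

theorem main (K L : Type) [Field K] [Field L] [Algebra K L] (n : ℕ)
  (X Y : Matrix (Fin n) (Fin n) K) (P : GL (Fin n) L) (d e : Fin n → L)
  (hX : X.map (algebraMap K L) = P * Matrix.diagonal d * (P⁻¹ : GL (Fin n) L))
  (hY : Y.map (algebraMap K L) = P * Matrix.diagonal e * (P⁻¹ : GL (Fin n) L))
  (hde : ∀ i j, d i = d j → e i = e j) : ∃ h : K[X], Y = aeval X h := by
  classical
  -- interpolation over `L`
  obtain ⟨p, hp⟩ : ∃ p : L[X], ∀ i, p.eval (d i) = e i := by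
    have hr : ∀ y : L, ∃ v : L, ∀ i, d i = y → e i = v := by
      intro y
      by_cases hy : ∃ i, d i = y
      · obtain ⟨i, hi⟩ := hy
        exact ⟨e i, fun j hj => hde _ _ (hj.trans hi.symm)⟩
      · exact ⟨0, fun i hi => absurd ⟨i, hi⟩ hy⟩
    choose v hv using hr
    refine ⟨Lagrange.interpolate (Finset.univ.image d) id v, fun i => ?_⟩
    have hi : d i ∈ Finset.univ.image d := Finset.mem_image_of_mem _ (Finset.mem_univ i)
    have := Lagrange.eval_interpolate_at_node v
      (Set.injOn_id (↑(Finset.univ.image d) : Set L)) hi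
    simp only [id] at this
    rw [this]
    exact (hv _ i rfl).symm
  -- a retraction `L → K`
  obtain ⟨r, hr⟩ := LinearMap.exists_leftInverse_of_injective (Algebra.linearMap K L)
    (LinearMap.ker_eq_bot.mpr (FaithfulSMul.algebraMap_injective K L))
  have hr1 : ∀ x : K, r (algebraMap K L x) = x := fun x => by
    have := LinearMap.congr_fun hr x
    simpa using this
  -- the identity over `L`
  have hYp : Y.map (algebraMap K L) =
      ∑ j ∈ Finset.range (p.natDegree + 1), p.coeff j • (X ^ j).map (algebraMap K L) := by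
    have h1 : ∀ j, (X ^ j).map (algebraMap K L) =
        P * Matrix.diagonal (fun i => d i ^ j) * (P⁻¹ : GL (Fin n) L) := by
      intro j
      rw [← pow_conj, ← hX]
      exact map_pow (algebraMap K L).mapMatrix X j
    simp only [h1]
    rw [hY]
    have h2 : ∀ j, p.coeff j • ((P : Matrix (Fin n) (Fin n) L) *
        Matrix.diagonal (fun i => d i ^ j) * (P⁻¹ : GL (Fin n) L)) =
        P * Matrix.diagonal (fun i => p.coeff j * d i ^ j) * (P⁻¹ : GL (Fin n) L) := by
      intro j
      rw [← Matrix.smul_mul, ← Matrix.mul_smul, ← Matrix.diagonal_smul]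
      rfl
    simp only [h2]
    rw [← Finset.sum_mul, ← Finset.mul_sum]
    congr 2
    ext a b
    rw [Matrix.sum_apply]
    by_cases hab : a = b
    · subst hab
      simp only [Matrix.diagonal_apply_eq]
      rw [← hp a, eval_eq_sum_range]
    · simp only [Matrix.diagonal_apply_ne _ hab, Finset.sum_const_zero]
  refine ⟨∑ j ∈ Finset.range (p.natDegree + 1), monomial j (r (p.coeff j)), ?_⟩
  rw [map_sum]
  ext a b
  have h3 := congrFun (congrFun hYp a) b
  rw [Matrix.map_apply, Matrix.sum_apply] at h3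
  have h4 := congrArg r h3
  rw [hr1, map_sum] at h4
  rw [h4, Matrix.sum_apply]
  refine Finset.sum_congr rfl fun j _ => ?_
  rw [aeval_monomial]
  simp only [Matrix.smul_apply, Matrix.map_apply, smul_eq_mul]
  rw [← Algebra.smul_def, Matrix.smul_apply, mul_comm (p.coeff j), ← Algebra.smul_def, map_smul,
    smul_eq_mul, smul_eq_mul, mul_comm]

end LAG

theorem t_LAG : S_LAG := fun K L _ _ _ n X Y P d e hX hY hde =>
  LAG.main K L n X Y P d e hX hY hde

end Pool.Agent.NH56.PA
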