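import Pool.Agent.NH56.PA.Stm

/-!
# Project PA: uniqueness of the stable lattices at one prime
-/

set_option autoImplicit false
set_option linter.unusedSectionVars false

namespace Pool.Agent.NH56.PA

open Matrix Polynomial Pool.Agent.NH52.MB

namespace Loc

variable {G : Type} [Group G] {n ℓ : ℕ} [hℓ : Fact ℓ.Prime]

/-- the subgroup `U` acts through the algebra generated by the separable element `ρ u` -/
structure Gen (ρ : G →* GL (Fin n) ℤ_[ℓ]) (U : Subgroup G) (u : G) (f a b : ℤ_[ℓ][X]) : Prop where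
  mem : u ∈ U
  id : a * f + b * derivative f = 1
  zero : aeval (ρ u : Matrix (Fin n) (Fin n) ℤ_[ℓ]) f = 0
  gen : ∀ g ∈ U, ∃ (m : ℕ) (h : ℤ_[ℓ][X]), (ℓ : ℤ_[ℓ]) ^ m • (ρ g : Matrix (Fin n) (Fin n) ℤ_[ℓ]) =
    aeval (ρ u : Matrix (Fin n) (Fin n) ℤ_[ℓ]) h

theorem aeval_inter {x y B : Matrix (Fin n) (Fin n) ℤ_[ℓ]} (h : x * B = B * y) (p : ℤ_[ℓ][X]) :
    aeval x p * B = B * aeval y p := by
  induction p using Polynomial.induction_on' with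
  | add p q hp hq => rw [map_add, map_add, add_mul, mul_add, hp, hq]
  | monomial k c =>
    rw [aeval_monomial, aeval_monomial]
    have h1 : x ^ k * B = B * y ^ k := by
      induction k with
      | zero => rw [pow_zero, pow_zero, one_mul, mul_one]
      | succ k ih => rw [pow_succ, pow_succ, mul_assoc, h, ← mul_assoc, ih, mul_assoc]
    rw [Algebra.algebraMap_eq_smul_one, smul_mul_assoc, one_mul, smul_mul_assoc, smul_mul_assoc, one_mul,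
      h1, Matrix.mul_smul]

theorem cancel {B X Y : Matrix (Fin n) (Fin n) ℤ_[ℓ]} (hB : B.det ≠ 0) (h : B * X = B * Y) :
    X = Y := by
  have h1 : B.adjugate * (B * X) = B.adjugate * (B * Y) := by rw [h]
  rw [← mul_assoc, ← mul_assoc, Matrix.adjugate_mul, smul_mul_assoc, smul_mul_assoc, one_mul,
    one_mul] at h1
  exact smul_right_injective _ hB h1

theorem cancelR {B X Y : Matrix (Fin n) (Fin n) ℤ_[ℓ]} (hB : B.det ≠ 0) (h : X * B = Y * B) :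
    X = Y := by
  have h1 : (X * B) * B.adjugate = (Y * B) * B.adjugate := by rw [h]
  rw [mul_assoc, mul_assoc, Matrix.mul_adjugate, mul_smul_comm, mul_smul_comm, mul_one,
    mul_one] at h1
  exact smul_right_injective _ hB h1

theorem smul_cancel {m : ℕ} {X Y : Matrix (Fin n) (Fin n) ℤ_[ℓ]}
    (h : (ℓ : ℤ_[ℓ]) ^ m • X = (ℓ : ℤ_[ℓ]) ^ m • Y) : X = Y :=
  smul_right_injective _ (pow_ne_zero m (by exact_mod_cast hℓ.out.ne_zero)) h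

theorem Gen.transfer {ρ₀ ρ : G →* GL (Fin n) ℤ_[ℓ]} {U : Subgroup G} {u : G} {f a b : ℤ_[ℓ][X]}
    (hg : Gen ρ₀ U u f a b) {B : Matrix (Fin n) (Fin n) ℤ_[ℓ]} (hB : B.det ≠ 0)
    (h : ∀ g, (ρ₀ g : Matrix (Fin n) (Fin n) ℤ_[ℓ]) * B = B * ρ g) : Gen ρ U u f a b where
  mem := hg.mem
  id := hg.id
  zero := by
    refine cancel hB ?_
    rw [← aeval_inter (h u), hg.zero, zero_mul, mul_zero]
  gen := by
    intro g hgU
    obtain ⟨m, p, hp⟩ := hg.gen g hgU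
    refine ⟨m, p, cancel hB ?_⟩
    rw [← aeval_inter (h u), ← hp, smul_mul_assoc, mul_smul_comm, h g]

/-- two representations for which the same polynomials give the elements of `U` -/
structure Gen2 (ρ₁ ρ₂ : G →* GL (Fin n) ℤ_[ℓ]) (U : Subgroup G) (u : G) (f a b : ℤ_[ℓ][X]) :
    Prop where
  mem : u ∈ U
  id : a * f + b * derivative f = 1
  zero1 : aeval (ρ₁ u : Matrix (Fin n) (Fin n) ℤ_[ℓ]) f = 0
  zero2 : aeval (ρ₂ u : Matrix (Fin n) (Fin n) ℤ_[ℓ]) f = 0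
  gen : ∀ g ∈ U, ∃ (m : ℕ) (h : ℤ_[ℓ][X]),
    (ℓ : ℤ_[ℓ]) ^ m • (ρ₁ g : Matrix (Fin n) (Fin n) ℤ_[ℓ]) =
      aeval (ρ₁ u : Matrix (Fin n) (Fin n) ℤ_[ℓ]) h ∧
    (ℓ : ℤ_[ℓ]) ^ m • (ρ₂ g : Matrix (Fin n) (Fin n) ℤ_[ℓ]) =
      aeval (ρ₂ u : Matrix (Fin n) (Fin n) ℤ_[ℓ]) h

theorem Gen2.ret (hRET : S_RET) {ρ₁ ρ₂ : G →* GL (Fin n) ℤ_[ℓ]} {U : Subgroup G} {u : G}
    {f a b : ℤ_[ℓ][X]} (hg : Gen2 ρ₁ ρ₂ U u f a b) : ∃ (r : ℕ)
      (A B : Fin r → Matrix (Fin n) (Fin n) ℤ_[ℓ]), Ret (PadicInt.toZMod (p := ℓ)) ρ₁ ρ₂ U r A B := by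
  obtain ⟨r, A, B, hA, hB, h1, h2⟩ := hRET ℤ_[ℓ] (ZMod ℓ) (PadicInt.toZMod (p := ℓ)) n
    (ρ₁ u : Matrix (Fin n) (Fin n) ℤ_[ℓ]) (ρ₂ u : Matrix (Fin n) (Fin n) ℤ_[ℓ]) f a b hg.id
    hg.zero1 hg.zero2
  refine ⟨r, A, B, ⟨fun t => ?_, fun t => ?_, fun M g hgU => ?_, fun M hM => h2 M (hM u hg.mem)⟩⟩
  · refine Algebra.adjoin_mono ?_ (hA t)
    rintro _ rfl
    exact ⟨u, rfl⟩
  · refine Algebra.adjoin_mono ?_ (hB t)
    rintro _ rfl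
    exact ⟨u, rfl⟩
  · obtain ⟨m, p, hp1, hp2⟩ := hg.gen g hgU
    refine smul_cancel (m := m) ?_
    rw [← smul_mul_assoc, hp1, aeval_inter (h1 M), ← hp2, mul_smul_comm]

/-- **Uniqueness of the stable lattices.** -/
theorem uniq (hRET : S_RET) (hAVG : S_AVG) (hRSS : S_RSS) (hISO : S_ISO)
    {ρ₀ ρ : G →* GL (Fin n) ℤ_[ℓ]} {U : Subgroup G} (hU : U.FiniteIndex)
    (hi : ¬ ℓ ∣ U.index) (hn : n < ℓ) {u : G} {f a b : ℤ_[ℓ][X]} (hg : Gen ρ₀ U u f a b)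
    {B : Matrix (Fin n) (Fin n) ℤ_[ℓ]} (hB : B.det ≠ 0)
    (h : ∀ g, (ρ₀ g : Matrix (Fin n) (Fin n) ℤ_[ℓ]) * B = B * ρ g) :
    ∃ C : GL (Fin n) ℤ_[ℓ], ∀ g, ρ g = C * ρ₀ g * C⁻¹ := by
  have hg' := hg.transfer hB h
  have hunit : IsUnit ((U.index : ℕ) : ℤ_[ℓ]) := by
    rw [PadicInt.isUnit_iff]
    have h1 : ‖((U.index : ℤ) : ℤ_[ℓ])‖ = 1 := by
      refine le_antisymm (PadicInt.norm_le_one _) ?_
      by_contra hlt
      rw [not_le, PadicInt.norm_int_lt_one_iff_dvd] at hlt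
      exact hi (by exact_mod_cast hlt)
    exact_mod_cast h1
  have hsurj : Function.Surjective (PadicInt.toZMod (p := ℓ)) := by
    intro x
    refine ⟨(x.val : ℤ_[ℓ]), ?_⟩
    rw [map_natCast, ZMod.natCast_zmod_val]
  have hloc : IsLocalHom (PadicInt.toZMod (p := ℓ)) := by
    refine ⟨fun x hx => ?_⟩
    by_contra hnu
    have h1 : x ∈ RingHom.ker (PadicInt.toZMod (p := ℓ)) := by
      rw [PadicInt.ker_toZMod]
      exact (IsLocalRing.mem_maximalIdeal x).2 hnu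
    rw [RingHom.mem_ker] at h1
    rw [h1] at hx
    exact not_isUnit_zero hx
  have g00 : Gen2 ρ₀ ρ₀ U u f a b := ⟨hg.mem, hg.id, hg.zero, hg.zero, fun g hgU => by
    obtain ⟨m, p, hp⟩ := hg.gen g hgU
    exact ⟨m, p, hp, hp⟩⟩
  have g11 : Gen2 ρ ρ U u f a b := ⟨hg'.mem, hg'.id, hg'.zero, hg'.zero, fun g hgU => by
    obtain ⟨m, p, hp⟩ := hg'.gen g hgU
    exact ⟨m, p, hp, hp⟩⟩
  have g10 : Gen2 ρ ρ₀ U u f a b := ⟨hg.mem, hg.id, hg'.zero, hg.zero, fun g hgU => by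
    obtain ⟨m, p, hp⟩ := hg.gen g hgU
    refine ⟨m, p, cancel hB ?_, hp⟩
    rw [← aeval_inter (h u), ← hp, smul_mul_assoc, mul_smul_comm, h g]⟩
  obtain ⟨r0, A0, B0, h0⟩ := g00.ret hRET
  obtain ⟨r1, A1, B1, h1⟩ := g11.ret hRET
  obtain ⟨r2, A2, B2, h2⟩ := g10.ret hRET
  obtain ⟨r0', A0', B0', h0'⟩ := hAVG G ℤ_[ℓ] (ZMod ℓ) _ n ρ₀ ρ₀ U hU hunit r0 A0 B0 h0
  obtain ⟨r1', A1', B1', h1'⟩ := hAVG G ℤ_[ℓ] (ZMod ℓ) _ n ρ ρ U hU hunit r1 A1 B1 h1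
  obtain ⟨r2', A2', B2', h2'⟩ := hAVG G ℤ_[ℓ] (ZMod ℓ) _ n ρ ρ₀ U hU hunit r2 A2 B2 h2
  refine hISO G ℤ_[ℓ] (ZMod ℓ) _ hsurj hloc n ρ ρ₀ ?_ (hRSS G ℤ_[ℓ] (ZMod ℓ) _ hsurj n ρ r1' A1' B1' h1')
    (hRSS G ℤ_[ℓ] (ZMod ℓ) _ hsurj n ρ₀ r0' A0' B0' h0') ?_ r2' A2' B2' h2'
  · intro m hm hmn h0
    rw [ZMod.natCast_eq_zero_iff] at h0
    have := Nat.le_of_dvd hm h0
    omega
  · intro g
    -- `det B * trace = trace (adj B * ρ₀ * B)`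
    have h3 : B.det * (ρ g : Matrix (Fin n) (Fin n) ℤ_[ℓ]).trace =
        B.det * (ρ₀ g : Matrix (Fin n) (Fin n) ℤ_[ℓ]).trace := by
      have h4 : (B.adjugate * (B * (ρ g : Matrix (Fin n) (Fin n) ℤ_[ℓ]))).trace =
          B.det * (ρ g : Matrix (Fin n) (Fin n) ℤ_[ℓ]).trace := by
        rw [← mul_assoc, Matrix.adjugate_mul, smul_mul_assoc, one_mul, Matrix.trace_smul, smul_eq_mul]
      rw [← h4, ← h g, ← mul_assoc, Matrix.trace_mul_comm, ← mul_assoc, Matrix.mul_adjugate,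
        smul_mul_assoc, one_mul, Matrix.trace_smul, smul_eq_mul]
    exact mul_left_cancel₀ hB h3

end Loc

end Pool.Agent.NH56.PA
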