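import Pool.Agent.NH56.PA.Stm

/-!
# Project PA: the minimal polynomial of a semisimple matrix with integral characteristic polynomial
-/

set_option autoImplicit false

namespace Pool.Agent.NH56.PA

open Matrix Polynomial UniqueFactorizationMonoid

namespace Nd1

/-- a separable polynomial over an algebraically closed field all whose roots are roots of `g` divides `g` -/
lemma dvd_of_roots {F : Type} [Field F] [IsAlgClosed F] {r g : F[X]} (hr : r.Separable)
    (h : ∀ z, r.IsRoot z → g.IsRoot z) : r ∣ g := by
  classical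
  rcases eq_or_ne g 0 with rfl | hg
  · exact dvd_zero _
  have hr0 : r ≠ 0 := hr.ne_zero
  have h1 : (r.roots.map fun a => X - C a).prod ∣ g := by
    rw [Multiset.prod_X_sub_C_dvd_iff_le_roots hg, Multiset.le_iff_subset (nodup_roots hr)]
    intro z hz
    exact (mem_roots hg).2 (h z (isRoot_of_mem_roots hz))
  have h2 := (IsAlgClosed.splits r).eq_prod_roots
  have h3 : IsUnit (C r.leadingCoeff) := (isUnit_iff_ne_zero.2 (leadingCoeff_ne_zero.2 hr0)).map C
  rw [h2]
  exact h3.mul_left_dvd.2 h1

/-- the roots of the characteristic polynomial are roots of the minimal polynomial -/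
lemma root_min {K L : Type} [Field K] [Field L] (φ : K →+* L) {n : ℕ}
    (A : Matrix (Fin n) (Fin n) K) (z : L) (hz : (A.charpoly.map φ).IsRoot z) :
    ((minpoly K A).map φ).IsRoot z := by
  have h1 : (A.map φ).charpoly.IsRoot z := by
    rw [Matrix.charpoly_map]
    exact hz
  have h2 : z ∈ spectrum L (A.map φ) := Matrix.mem_spectrum_iff_isRoot_charpoly.2 h1
  have h3 : aeval (φ.mapMatrix A) ((minpoly K A).map φ) = 0 := by
    have h := map_aeval_eq_aeval_map (φ := φ) (ψ := (φ.mapMatrix : Matrix (Fin n) (Fin n) K →+* _)) (by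
      ext a i j
      simp only [RingHom.comp_apply, Matrix.algebraMap_matrix_apply, RingHom.mapMatrix_apply,
        Matrix.map_apply]
      split_ifs <;> simp) (minpoly K A) A
    rw [minpoly.aeval, map_zero] at h
    exact h.symm
  have h4 : (aeval (A.map φ)) ((minpoly K A).map φ) = 0 := h3
  have h5 := spectrum.subset_polynomial_aeval (A.map φ) ((minpoly K A).map φ) ⟨z, h2, rfl⟩
  rw [h4, spectrum.mem_iff, sub_zero] at h5
  by_contra h6
  exact h5 ((isUnit_iff_ne_zero.2 h6).map _)

lemma map_int (F : Type) [Field F] [CharZero F] (P : ℤ[X]) :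
    P.map (Int.castRingHom F) = (P.map (Int.castRingHom ℚ)).map (Rat.castHom F) := by
  rw [Polynomial.map_map]
  congr 1
  exact Subsingleton.elim _ _

end Nd1

open Classical in
theorem t_ND1 : S_ND1 := by
  intro K _ _ n A P hP hA hsq
  obtain ⟨Q, hQd⟩ : ∃ Q : ℚ[X], Q = P.map (Int.castRingHom ℚ) := ⟨_, rfl⟩
  have hQ : Q.Monic := by
    rw [hQd]
    exact hP.map _
  obtain ⟨R, hRd⟩ : ∃ R : ℚ[X], R = radical Q := ⟨_, rfl⟩
  have hR : R.Separable := by
    rw [hRd]
    exact PerfectField.separable_iff_squarefree.2 squarefree_radical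
  have hRQ : R ∣ Q := by
    rw [hRd]
    exact radical_dvd_self
  obtain ⟨m, hm⟩ : ∃ m, Q ∣ R ^ (m + 1) := by
    obtain ⟨m, hm⟩ := exists_dvd_radical_self_pow (a := Q) hQ.ne_zero
    rw [← hRd] at hm
    exact ⟨m, hm.trans (pow_dvd_pow _ (Nat.le_succ m))⟩
  -- the roots
  have key : ∀ (F : Type) [Field F] [CharZero F] (z : F),
      (R.map (Rat.castHom F)).IsRoot z ↔ (P.map (Int.castRingHom F)).IsRoot z := by
    intro F _ _ z
    rw [Nd1.map_int, ← hQd]
    constructor
    · intro h
      exact h.dvd (Polynomial.map_dvd _ hRQ)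
    · intro h
      have h1 : Q.map (Rat.castHom F) ∣ (R.map (Rat.castHom F)) ^ (m + 1) := by
        rw [← Polynomial.map_pow]
        exact Polynomial.map_dvd _ hm
      have h2 := h.dvd h1
      rw [IsRoot.def, eval_pow] at h2
      by_contra h3
      exact pow_ne_zero _ h3 h2
  -- the minimal polynomial divides the radical
  have d1 : minpoly K A ∣ R.map (Rat.castHom K) := by
    have h1 : minpoly K A ∣ (R.map (Rat.castHom K)) ^ (m + 1) := by
      refine (Matrix.minpoly_dvd_charpoly A).trans ?_
      rw [hA, Nd1.map_int, ← hQd, ← Polynomial.map_pow]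
      exact Polynomial.map_dvd _ hm
    exact (hsq.dvd_pow_iff_dvd (Nat.succ_ne_zero m)).1 h1
  have d2 : R.map (Rat.castHom K) ∣ minpoly K A := by
    rw [← Polynomial.map_dvd_map' (algebraMap K (AlgebraicClosure K))]
    refine Nd1.dvd_of_roots (hR.map.map) fun z hz => ?_
    refine Nd1.root_min _ A z ?_
    have h1 : (R.map (Rat.castHom (AlgebraicClosure K))).IsRoot z := by
      rw [Polynomial.map_map] at hz
      convert hz
      exact Subsingleton.elim _ _
    have h2 := (key _ z).1 h1
    rw [hA, Polynomial.map_map]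
    convert h2
    exact Subsingleton.elim _ _
  have hRK : R.map (Rat.castHom K) ≠ 0 := hR.map.ne_zero
  have hdeg : (minpoly K A).natDegree = R.natDegree := by
    rw [← natDegree_map (Rat.castHom K) (p := R)]
    exact le_antisymm (natDegree_le_of_dvd d1 hRK) (natDegree_le_of_dvd d2 hsq.ne_zero)
  refine ⟨?_, fun f hf => ?_⟩
  · have e : (P.aroots ℂ).toFinset = (R.map (Rat.castHom ℂ)).roots.toFinset := by
      ext z
      rw [Multiset.mem_toFinset, Multiset.mem_toFinset, mem_roots hR.map.ne_zero, key, aroots,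
        mem_roots (hP.map _).ne_zero]
      rw [show algebraMap ℤ ℂ = Int.castRingHom ℂ from Subsingleton.elim _ _]
    rw [e, Multiset.toFinset_card_of_nodup (nodup_roots hR.map),
      ← (IsAlgClosed.splits _).natDegree_eq_card_roots, natDegree_map, hdeg]
  · have h1 : R.map (Rat.castHom ℂ) ∣ f.map (Int.castRingHom ℂ) := by
      refine Nd1.dvd_of_roots hR.map fun z hz => ?_
      have h2 := (key _ z).1 hz
      have h3 : z ∈ P.aroots ℂ := by
        rw [aroots, mem_roots (hP.map _).ne_zero]
        rw [show algebraMap ℤ ℂ = Int.castRingHom ℂ from Subsingleton.elim _ _]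
        exact h2
      have h4 := hf z h3
      rw [IsRoot.def, eval_map]
      rw [aeval_def] at h4
      rw [show algebraMap ℤ ℂ = Int.castRingHom ℂ from Subsingleton.elim _ _] at h4
      exact h4
    rw [Nd1.map_int, Polynomial.map_dvd_map'] at h1
    have h2 : minpoly K A ∣ f.map (Int.castRingHom K) := by
      refine d1.trans ?_
      rw [Nd1.map_int]
      exact Polynomial.map_dvd _ h1
    obtain ⟨g, hg⟩ := h2
    rw [hg, map_mul, minpoly.aeval, zero_mul]

end Pool.Agent.NH56.PA
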