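import Pool.Agent.NH56.PA.Stm

/-!
# PA-ND2 (helper17): the degree of the minimal polynomial of a diagonalizable matrix
-/

set_option autoImplicit false

namespace Pool.Agent.NH56.PA

open Matrix Polynomial

namespace Nd2

theorem aeval_conj {L : Type} [Field L] {n : ℕ} (P : GL (Fin n) L) (d : Fin n → L) (f : L[X]) :
    aeval ((P : Matrix (Fin n) (Fin n) L) * Matrix.diagonal d *
      ((P⁻¹ : GL (Fin n) L) : Matrix (Fin n) (Fin n) L)) f =
      (P : Matrix (Fin n) (Fin n) L) * Matrix.diagonal (fun i => f.eval (d i)) *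
      ((P⁻¹ : GL (Fin n) L) : Matrix (Fin n) (Fin n) L) := by
  have hP1 : (P : Matrix (Fin n) (Fin n) L) * ((P⁻¹ : GL (Fin n) L) : Matrix (Fin n) (Fin n) L) = 1 :=
    Units.mul_inv P
  have hP2 : ((P⁻¹ : GL (Fin n) L) : Matrix (Fin n) (Fin n) L) * (P : Matrix (Fin n) (Fin n) L) = 1 :=
    Units.inv_mul P
  have hcomb : ∀ A B : Matrix (Fin n) (Fin n) L,
      ((P : Matrix (Fin n) (Fin n) L) * A * ((P⁻¹ : GL (Fin n) L) : Matrix (Fin n) (Fin n) L)) *
      ((P : Matrix (Fin n) (Fin n) L) * B * ((P⁻¹ : GL (Fin n) L) : Matrix (Fin n) (Fin n) L)) =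
      (P : Matrix (Fin n) (Fin n) L) * (A * B) *
        ((P⁻¹ : GL (Fin n) L) : Matrix (Fin n) (Fin n) L) := by
    intro A B
    calc _ = (P : Matrix (Fin n) (Fin n) L) * A * (((P⁻¹ : GL (Fin n) L) :
          Matrix (Fin n) (Fin n) L) * (P : Matrix (Fin n) (Fin n) L)) * B *
          ((P⁻¹ : GL (Fin n) L) : Matrix (Fin n) (Fin n) L) := by simp only [mul_assoc]
      _ = _ := by rw [hP2, mul_one]; simp only [mul_assoc]
  induction f using Polynomial.induction_on with
  | C a =>
    rw [aeval_C]
    have h1 : (Matrix.diagonal fun i => (C a : L[X]).eval (d i)) =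
        algebraMap L (Matrix (Fin n) (Fin n) L) a := by
      rw [Matrix.algebraMap_eq_diagonal]
      congr 1
      funext i
      simp
    rw [h1, Algebra.commutes a (P : Matrix (Fin n) (Fin n) L) |>.symm, mul_assoc, hP1, mul_one]
  | add p q hp hq =>
    rw [map_add, hp, hq, ← add_mul, ← mul_add, Matrix.diagonal_add]
    simp only [eval_add]
  | monomial m a ih =>
    rw [pow_succ, ← mul_assoc, map_mul, ih, aeval_X, hcomb, Matrix.diagonal_mul_diagonal]
    simp only [eval_mul, eval_X]

theorem aeval_zero_iff {L : Type} [Field L] {n : ℕ} (P : GL (Fin n) L) (d : Fin n → L) (f : L[X]) :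
    aeval ((P : Matrix (Fin n) (Fin n) L) * Matrix.diagonal d *
      ((P⁻¹ : GL (Fin n) L) : Matrix (Fin n) (Fin n) L)) f = 0 ↔ ∀ i, f.eval (d i) = 0 := by
  rw [aeval_conj]
  constructor
  · intro h i
    have h1 : Matrix.diagonal (fun i => f.eval (d i)) = (0 : Matrix (Fin n) (Fin n) L) := by
      have h2 : ((P⁻¹ : GL (Fin n) L) : Matrix (Fin n) (Fin n) L) *
          ((P : Matrix (Fin n) (Fin n) L) * Matrix.diagonal (fun i => f.eval (d i)) *
          ((P⁻¹ : GL (Fin n) L) : Matrix (Fin n) (Fin n) L)) * (P : Matrix (Fin n) (Fin n) L) =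
          Matrix.diagonal (fun i => f.eval (d i)) := by
        have hP2 : ((P⁻¹ : GL (Fin n) L) : Matrix (Fin n) (Fin n) L) *
          (P : Matrix (Fin n) (Fin n) L) = 1 := Units.inv_mul P
        calc _ = (((P⁻¹ : GL (Fin n) L) : Matrix (Fin n) (Fin n) L) *
          (P : Matrix (Fin n) (Fin n) L)) * Matrix.diagonal (fun i => f.eval (d i)) *
          (((P⁻¹ : GL (Fin n) L) : Matrix (Fin n) (Fin n) L) *
            (P : Matrix (Fin n) (Fin n) L)) := by simp only [mul_assoc]
          _ = _ := by rw [hP2, one_mul, mul_one]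
      rw [← h2, h, mul_zero, zero_mul]
    have h3 := congrFun (congrFun h1 i) i
    simpa using h3
  · intro h
    have h1 : (fun i => f.eval (d i)) = fun _ => 0 := funext h
    rw [h1, Matrix.diagonal_zero, mul_zero, zero_mul]

theorem aeval_map {K L : Type} [Field K] [Field L] [Algebra K L] {n : ℕ}
    (X : Matrix (Fin n) (Fin n) K) (f : K[X]) :
    aeval (X.map (algebraMap K L)) (f.map (algebraMap K L)) =
      (aeval X f).map (algebraMap K L) := by
  rw [Polynomial.aeval_map_algebraMap]
  exact Polynomial.aeval_algHom_apply (Algebra.ofId K L).mapMatrix X f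

/-- a relation over the extension gives a relation over the field -/
theorem descend {K L : Type} [Field K] [Field L] [Algebra K L] {n : ℕ}
    (X : Matrix (Fin n) (Fin n) K) (r : L[X]) (hr : r.Monic)
    (h : aeval (X.map (algebraMap K L)) r = 0) :
    (minpoly K X).natDegree ≤ r.natDegree := by
  obtain ⟨φ, hφ⟩ : ∃ φ : Module.Dual K L, φ 1 ≠ 0 := by
    by_contra hc
    push Not at hc
    exact one_ne_zero ((Module.forall_dual_apply_eq_zero_iff K (1 : L)).1 hc)
  set q : K[X] := ∑ i ∈ Finset.range (r.natDegree + 1), C (φ (r.coeff i)) * (Polynomial.X : K[X]) ^ i with hq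
  have hcoef : q.coeff r.natDegree = φ 1 := by
    rw [hq, Polynomial.finset_sum_coeff]
    rw [Finset.sum_eq_single r.natDegree]
    · rw [coeff_C_mul, coeff_X_pow_self, mul_one, hr.coeff_natDegree]
    · intro b _ hb
      rw [coeff_C_mul, coeff_X_pow, if_neg (fun h => hb h.symm), mul_zero]
    · intro hb
      exact absurd (Finset.mem_range.2 (Nat.lt_succ_self _)) hb
  have hq0 : q ≠ 0 := by
    intro h0
    rw [h0, coeff_zero] at hcoef
    exact hφ hcoef.symm
  have hdeg : q.natDegree ≤ r.natDegree := by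
    rw [hq]
    refine Polynomial.natDegree_sum_le_of_forall_le _ _ fun i hi => ?_
    exact (Polynomial.natDegree_C_mul_X_pow_le _ _).trans (Nat.lt_succ_iff.1 (Finset.mem_range.1 hi))
  have haev : aeval X q = 0 := by
    ext a b
    have h1 : aeval X q = ∑ i ∈ Finset.range (r.natDegree + 1), φ (r.coeff i) • X ^ i := by
      rw [hq, map_sum]
      refine Finset.sum_congr rfl fun i _ => ?_
      rw [map_mul, aeval_C, map_pow, aeval_X, ← Algebra.smul_def]
    have h2 := h
    rw [Polynomial.aeval_eq_sum_range] at h2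
    have h3 := congrFun (congrFun h2 a) b
    rw [Matrix.sum_apply] at h3
    rw [h1, Matrix.sum_apply]
    have h4 := congrArg φ h3
    rw [map_sum] at h4
    rw [Matrix.zero_apply] at h4 ⊢
    rw [map_zero] at h4
    rw [← h4]
    refine Finset.sum_congr rfl fun i _ => ?_
    have h5 : (X.map (algebraMap K L)) ^ i = (X ^ i).map (algebraMap K L) := by
      have h6 := map_pow (Algebra.ofId K L).mapMatrix X i
      exact h6.symm
    rw [h5, Matrix.smul_apply, Matrix.smul_apply, Matrix.map_apply, smul_eq_mul, smul_eq_mul,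
      mul_comm (r.coeff i), ← Algebra.smul_def, map_smul, smul_eq_mul, mul_comm]
  have h7 := minpoly.degree_le_of_ne_zero K X hq0 haev
  exact (Polynomial.natDegree_le_natDegree h7).trans hdeg

end Nd2

open Classical in
theorem t_ND2 : S_ND2 := by
  intro K L _ _ _ n X P d h
  apply le_antisymm
  · have h1 : (∏ v ∈ Finset.univ.image d, (Polynomial.X - C v)).Monic :=
      Polynomial.monic_prod_of_monic _ _ fun v _ => Polynomial.monic_X_sub_C v
    have h2 : (∏ v ∈ Finset.univ.image d, (Polynomial.X - C v)).natDegree =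
        (Finset.univ.image d).card := by
      rw [Polynomial.natDegree_prod_of_monic _ _ fun v _ => Polynomial.monic_X_sub_C v]
      simp
    rw [← h2]
    refine Nd2.descend (L := L) X _ h1 ?_
    rw [h]
    refine (Nd2.aeval_zero_iff P d _).2 fun i => ?_
    rw [Polynomial.eval_prod]
    refine Finset.prod_eq_zero (Finset.mem_image_of_mem d (Finset.mem_univ i)) ?_
    simp
  · have hint : IsIntegral K X := Matrix.isIntegral X
    have hm := minpoly.monic hint
    have h1 : aeval (X.map (algebraMap K L)) ((minpoly K X).map (algebraMap K L)) = 0 := by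
      rw [Nd2.aeval_map, minpoly.aeval]
      ext a b
      simp
    rw [h] at h1
    have h2 := (Nd2.aeval_zero_iff P d _).1 h1
    have h3 : (Finset.univ.image d).val ⊆ ((minpoly K X).map (algebraMap K L)).roots := by
      intro v hv
      have h4 : v ∈ Finset.univ.image d := hv
      obtain ⟨i, -, rfl⟩ := Finset.mem_image.1 h4
      rw [Polynomial.mem_roots (hm.map _).ne_zero]
      exact h2 i
    have h5 := Polynomial.card_le_degree_of_subset_roots h3
    rwa [hm.natDegree_map] at h5

end Pool.Agent.NH56.PA
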