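import Pool.Agent.NH56.PA.Stm

/-!
# PA-OPEN: the degree of the minimal polynomial is lower semicontinuous
-/

set_option autoImplicit false

namespace Pool.Agent.NH56.PA

open Matrix Polynomial

namespace Open

theorem li_iff {K A : Type} [Field K] [Ring A] [Algebra K A] [FiniteDimensional K A] (x : A) (t : ℕ) :
    LinearIndependent K (fun i : Fin t => x ^ (i : ℕ)) ↔ t ≤ (minpoly K x).natDegree := by
  have hint : IsIntegral K x := IsIntegral.of_finite K x
  constructor
  · intro h
    by_contra hc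
    rw [not_le] at hc
    rw [Fintype.linearIndependent_iff] at h
    have h1 := h (fun i => (minpoly K x).coeff i) (by
      rw [← Finset.sum_range (fun i => (minpoly K x).coeff i • x ^ i),
        ← Polynomial.aeval_eq_sum_range' hc, minpoly.aeval])
    have h2 := h1 ⟨(minpoly K x).natDegree, hc⟩
    have h3 := (minpoly.monic hint).leadingCoeff
    rw [Polynomial.leadingCoeff] at h3
    exact one_ne_zero (h3.symm.trans h2)
  · intro h
    exact (linearIndependent_pow (K := K) x).comp (Fin.castLE h) (Fin.castLE_injective h)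

end Open

section

attribute [local instance] Matrix.normedAddCommGroup Matrix.normedSpace

theorem Open.isOpen_li' (ℓ : ℕ) [Fact ℓ.Prime] (n t : ℕ) :
    IsOpen {f : Fin t → Matrix (Fin n) (Fin n) ℚ_[ℓ] | LinearIndependent ℚ_[ℓ] f} :=
  isOpen_setOfPred_linearIndependent

end

theorem Open.isOpen_li (ℓ : ℕ) [Fact ℓ.Prime] (n t : ℕ) :
    IsOpen {f : Fin t → Matrix (Fin n) (Fin n) ℚ_[ℓ] | LinearIndependent ℚ_[ℓ] f} :=
  Open.isOpen_li' ℓ n t

theorem t_OPEN : S_OPEN := by
  intro ℓ _ n t
  have h1 : {X : Matrix (Fin n) (Fin n) ℚ_[ℓ] | t ≤ (minpoly ℚ_[ℓ] X).natDegree} =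
      (fun (X : Matrix (Fin n) (Fin n) ℚ_[ℓ]) (i : Fin t) => X ^ (i : ℕ)) ⁻¹'
        {f | LinearIndependent ℚ_[ℓ] f} := by
    ext X
    exact (Open.li_iff X t).symm
  rw [h1]
  have hc : Continuous (fun (X : Matrix (Fin n) (Fin n) ℚ_[ℓ]) (i : Fin t) => X ^ (i : ℕ)) :=
    continuous_pi fun i => continuous_pow (i : ℕ)
  exact (Open.isOpen_li ℓ n t).preimage hc

end Pool.Agent.NH56.PA
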