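import Pool.Agent.NH56.PA.Stm

/-!
# Project PA: a separable polynomial with the same roots (PA-RAD)
-/

set_option autoImplicit false

namespace Pool.Agent.NH56.PA

namespace Rad

open Polynomial

/-- clearing denominators of one rational polynomial -/
lemma clear (q : ℚ[X]) : ∃ d : ℤ, d ≠ 0 ∧ ∃ g : ℤ[X],
    g.map (Int.castRingHom ℚ) = C (d : ℚ) * q := by
  obtain ⟨b, hbM, hb⟩ := IsLocalization.integerNormalization_spec (nonZeroDivisors ℤ) q
  refine ⟨b, nonZeroDivisors.ne_zero hbM,
    IsLocalization.integerNormalization (nonZeroDivisors ℤ) q, ?_⟩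
  have h1 : (algebraMap ℤ ℚ) = Int.castRingHom ℚ := rfl
  rw [← h1, hb]
  ext i
  simp

end Rad

open Polynomial in
theorem t_RAD : S_RAD := by
  classical
  intro P hP
  have hQ : (P.map (Int.castRingHom ℚ)).Monic := hP.map _
  have hQ0 : P.map (Int.castRingHom ℚ) ≠ 0 := hQ.ne_zero
  have hsq : Squarefree (UniqueFactorizationMonoid.radical (P.map (Int.castRingHom ℚ))) :=
    UniqueFactorizationMonoid.squarefree_radical
  obtain ⟨u, v, huv⟩ := PerfectField.separable_iff_squarefree.2 hsq
  obtain ⟨d, hd, f, hf⟩ := Rad.clear (UniqueFactorizationMonoid.radical (P.map (Int.castRingHom ℚ)))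
  obtain ⟨d1, hd1, A, hA⟩ := Rad.clear u
  obtain ⟨d2, hd2, B, hB⟩ := Rad.clear v
  refine ⟨f, C d2 * A, C d1 * B, d * d1 * d2, mul_ne_zero (mul_ne_zero hd hd1) hd2, ?_, ?_⟩
  · intro z hz
    have hz1 : aeval z P = 0 := (mem_aroots.1 hz).2
    have hz2 : aeval z (P.map (Int.castRingHom ℚ)) = 0 := by
      have : (Int.castRingHom ℚ) = algebraMap ℤ ℚ := rfl
      rw [this, aeval_map_algebraMap]
      exact hz1
    have hint : IsIntegral ℚ z := ⟨_, hQ, by rwa [← aeval_def]⟩
    have hdvd : minpoly ℚ z ∣ P.map (Int.castRingHom ℚ) := minpoly.dvd ℚ z hz2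
    have hdvd2 : minpoly ℚ z ∣ UniqueFactorizationMonoid.radical (P.map (Int.castRingHom ℚ)) :=
      (UniqueFactorizationMonoid.dvd_radical_iff_of_irreducible (minpoly.irreducible hint) hQ0).2 hdvd
    have hz3 : aeval z (UniqueFactorizationMonoid.radical (P.map (Int.castRingHom ℚ))) = 0 := by
      obtain ⟨c, hc⟩ := hdvd2
      rw [hc, map_mul, minpoly.aeval, zero_mul]
    have hz4 : aeval z (f.map (Int.castRingHom ℚ)) = 0 := by
      rw [hf, map_mul, hz3, mul_zero]
    have : (Int.castRingHom ℚ) = algebraMap ℤ ℚ := rfl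
    rwa [this, aeval_map_algebraMap] at hz4
  · apply Polynomial.map_injective (Int.castRingHom ℚ) (RingHom.injective_int _)
    have hder : (derivative f).map (Int.castRingHom ℚ) =
        C (d : ℚ) * derivative (UniqueFactorizationMonoid.radical (P.map (Int.castRingHom ℚ))) := by
      rw [← Polynomial.derivative_map, hf, derivative_C_mul]
    simp only [Polynomial.map_add, Polynomial.map_mul, Polynomial.map_C, hf, hA, hB, hder]
    have e1 : (Int.castRingHom ℚ) d1 = (d1 : ℚ) := rfl
    have e2 : (Int.castRingHom ℚ) d2 = (d2 : ℚ) := rfl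
    have e3 : (Int.castRingHom ℚ) (d * d1 * d2) = (d : ℚ) * d1 * d2 := by simp
    rw [e1, e2, e3, C_mul, C_mul]
    linear_combination (C (d : ℚ) * C (d1 : ℚ) * C (d2 : ℚ)) * huv

end Pool.Agent.NH56.PA
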