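import Pool.Agent.NH56.PA.Stm

set_option autoImplicit false

namespace Pool.Agent.NH56.PA.RetX

open Matrix Polynomial Finset

variable {R k : Type} [CommRing R] [CommRing k] {n : ℕ}

/-- `∑ x ^ i M y ^ j` over `i + j = m - 1` -/
def S (x y M : Matrix (Fin n) (Fin n) R) : ℕ → Matrix (Fin n) (Fin n) R
  | 0 => 0
  | m + 1 => S x y M m * y + x ^ m * M

lemma S_eq (x y M : Matrix (Fin n) (Fin n) R) (m : ℕ) :
    S x y M m = ∑ i ∈ range m, x ^ i * M * y ^ (m - 1 - i) := by
  induction m with
  | zero => simp [S]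
  | succ m ih =>
    rw [S, ih, Finset.sum_range_succ, Finset.sum_mul]
    congr 1
    · refine Finset.sum_congr rfl fun i hi => ?_
      rw [Finset.mem_range] at hi
      have e : m + 1 - 1 - i = (m - 1 - i) + 1 := by omega
      rw [e, pow_succ, mul_assoc]
    · simp

lemma S_comm (x y M : Matrix (Fin n) (Fin n) R) (m : ℕ) :
    x * S x y M m - S x y M m * y = x ^ m * M - M * y ^ m := by
  induction m with
  | zero => simp [S]
  | succ m ih =>
    have e : x * S x y M (m + 1) - S x y M (m + 1) * y =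
        (x * S x y M m - S x y M m * y) * y + (x * (x ^ m * M) - x ^ m * M * y) := by
      rw [S]
      noncomm_ring
    rw [e, ih]
    rw [pow_succ' x, pow_succ y]
    noncomm_ring

lemma map_smul (φ : R →+* k) (c : R) (Z : Matrix (Fin n) (Fin n) R) :
    φ.mapMatrix (c • Z) = φ c • φ.mapMatrix Z := by
  ext i j
  simp [RingHom.mapMatrix_apply, Matrix.map_apply, Matrix.smul_apply]

lemma S_res (φ : R →+* k) (x y M : Matrix (Fin n) (Fin n) R)
    (h : φ.mapMatrix x * φ.mapMatrix M = φ.mapMatrix M * φ.mapMatrix y) (m : ℕ) :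
    φ.mapMatrix (S x y M m) = φ.mapMatrix (m • x ^ (m - 1)) * φ.mapMatrix M := by
  induction m with
  | zero => simp [S]
  | succ m ih =>
    rw [S, map_add, map_mul, ih, mul_assoc, ← h, ← mul_assoc, ← map_mul, map_mul _ (x ^ m),
      ← add_mul, ← map_add]
    congr 2
    rcases Nat.eq_zero_or_pos m with h0 | h0
    · subst h0
      simp
    · obtain ⟨k', rfl⟩ : ∃ k', m = k' + 1 := ⟨m - 1, by omega⟩
      rw [Nat.add_sub_cancel, Nat.add_sub_cancel, smul_mul_assoc, ← pow_succ,
        succ_nsmul _ (k' + 1)]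

/-- the operator -/
noncomputable def D (f : R[X]) (x y M : Matrix (Fin n) (Fin n) R) : Matrix (Fin n) (Fin n) R :=
  ∑ m ∈ range (f.natDegree + 1), f.coeff m • S x y M m

lemma D_comm (f : R[X]) (x y M : Matrix (Fin n) (Fin n) R) (hx : aeval x f = 0)
    (hy : aeval y f = 0) : x * D f x y M = D f x y M * y := by
  rw [← sub_eq_zero, D, Finset.mul_sum, Finset.sum_mul, ← Finset.sum_sub_distrib]
  have h1 : ∀ m ∈ range (f.natDegree + 1),
      x * (f.coeff m • S x y M m) - f.coeff m • S x y M m * y =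
        (f.coeff m • x ^ m) * M - M * (f.coeff m • y ^ m) := by
    intro m _
    rw [mul_smul_comm, smul_mul_assoc, ← smul_sub, S_comm, smul_sub, smul_mul_assoc,
      mul_smul_comm]
  rw [Finset.sum_congr rfl h1, Finset.sum_sub_distrib, ← Finset.sum_mul, ← Finset.mul_sum,
    ← aeval_eq_sum_range, ← aeval_eq_sum_range, hx, hy]
  simp

lemma aeval_der (f : R[X]) (x : Matrix (Fin n) (Fin n) R) :
    aeval x (derivative f) = ∑ m ∈ range (f.natDegree + 1), f.coeff m • (m • x ^ (m - 1)) := by
  conv_lhs => rw [f.as_sum_range_C_mul_X_pow]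
  rw [derivative_sum, map_sum]
  refine Finset.sum_congr rfl fun m _ => ?_
  rw [derivative_C_mul_X_pow, map_mul, map_pow, aeval_X, aeval_C, map_mul, map_natCast,
    mul_assoc, ← Algebra.smul_def, ← nsmul_eq_mul]

lemma D_res (φ : R →+* k) (f : R[X]) (x y M : Matrix (Fin n) (Fin n) R)
    (h : φ.mapMatrix x * φ.mapMatrix M = φ.mapMatrix M * φ.mapMatrix y) :
    φ.mapMatrix (D f x y M) = φ.mapMatrix (aeval x (derivative f)) * φ.mapMatrix M := by
  rw [aeval_der, D, map_sum, map_sum, Finset.sum_mul]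
  refine Finset.sum_congr rfl fun m _ => ?_
  rw [map_smul, map_smul, S_res φ x y M h, smul_mul_assoc]

end Pool.Agent.NH56.PA.RetX

namespace Pool.Agent.NH56.PA

open Matrix Polynomial Pool.Agent.NH56.PA.RetX

/-- PA-RET -/
theorem t_RET : S_RET := by
  intro R k _ _ φ n x y f a b hab hx hy
  classical
  set ι := Σ m : Fin (f.natDegree + 1), Fin m.1 with hι
  let e : Fin (Fintype.card ι) ≃ ι := (Fintype.equivFin ι).symm
  let A' : ι → Matrix (Fin n) (Fin n) R := fun p =>
    f.coeff p.1.1 • (aeval x b * x ^ p.2.1)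
  let B' : ι → Matrix (Fin n) (Fin n) R := fun p => y ^ (p.1.1 - 1 - p.2.1)
  have hop : ∀ M, op (fun t => A' (e t)) (fun t => B' (e t)) M = aeval x b * D f x y M := by
    intro M
    unfold op
    rw [e.sum_comp fun p => A' p * M * B' p, Fintype.sum_sigma, D, Finset.sum_range,
      Finset.mul_sum]
    refine Finset.sum_congr rfl fun m _ => ?_
    rw [S_eq, Finset.sum_range, Finset.smul_sum, Finset.mul_sum]
    refine Finset.sum_congr rfl fun i _ => ?_
    simp only [A', B', smul_mul_assoc, mul_smul_comm, mul_assoc]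
  have hbx : Commute x (aeval x b) := by
    have h1 : aeval x (X * b) = aeval x (b * X) := by rw [mul_comm]
    rw [map_mul, map_mul, aeval_X] at h1
    exact h1
  refine ⟨Fintype.card ι, fun t => A' (e t), fun t => B' (e t), fun t => ?_, fun t => ?_,
    fun M => ?_, fun M hM => ?_⟩
  · exact Subalgebra.smul_mem _ (Subalgebra.mul_mem _ (aeval_mem_adjoin_singleton R x)
      (Subalgebra.pow_mem _ (Algebra.self_mem_adjoin_singleton R x) _)) _
  · exact Subalgebra.pow_mem _ (Algebra.self_mem_adjoin_singleton R y) _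
  · rw [hop, ← mul_assoc, hbx.eq, mul_assoc, D_comm f x y M hx hy, mul_assoc]
  · rw [hop]
    have hM' : φ.mapMatrix x * φ.mapMatrix M = φ.mapMatrix M * φ.mapMatrix y := hM
    have h1 : aeval x b * aeval x (derivative f) = 1 := by
      have h2 : aeval x (a * f + b * derivative f) = 1 := by rw [hab, map_one]
      rw [map_add, map_mul, map_mul, hx, mul_zero, zero_add] at h2
      exact h2
    have h3 : φ.mapMatrix (aeval x b * D f x y M) = φ.mapMatrix M := by
      rw [map_mul, D_res φ f x y M hM', ← mul_assoc, ← map_mul, h1, map_one, one_mul]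
    exact h3

end Pool.Agent.NH56.PA
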