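import Pool.Agent.NH56.PA.Stm

/-!
# Residual semisimplicity
-/

set_option autoImplicit false

namespace Pool.Agent.NH56.PA

open Matrix Polynomial Pool.Agent.NH52.MB

namespace RSS

theorem stab_adjoin {G R k : Type} [Group G] [CommRing R] [Field k] (φ : R →+* k) {n : ℕ}
    (ρ : G →* GL (Fin n) R) (W : Submodule k (Fin n → k))
    (hW : ∀ g : G, ∀ w ∈ W, ((ρ g : Matrix (Fin n) (Fin n) R).map φ).mulVec w ∈ W)
    {M : Matrix (Fin n) (Fin n) R}
    (hM : M ∈ Algebra.adjoin R (Set.range fun g => (ρ g : Matrix (Fin n) (Fin n) R))) :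
    ∀ w ∈ W, (φ.mapMatrix M).mulVec w ∈ W := by
  induction hM using Algebra.adjoin_induction with
  | mem x hx =>
    obtain ⟨g, rfl⟩ := hx
    exact hW g
  | algebraMap r =>
    intro w hw
    have h1 : φ.mapMatrix (algebraMap R (Matrix (Fin n) (Fin n) R) r) =
        (φ r) • (1 : Matrix (Fin n) (Fin n) k) := by
      ext i j
      simp [Matrix.algebraMap_matrix_apply, Matrix.one_apply, apply_ite φ]
    rw [h1, Matrix.smul_mulVec, Matrix.one_mulVec]
    exact W.smul_mem _ hw
  | add x y _ _ hx hy =>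
    intro w hw
    rw [map_add, Matrix.add_mulVec]
    exact W.add_mem (hx w hw) (hy w hw)
  | mul x y _ _ hx hy =>
    intro w hw
    rw [map_mul, ← Matrix.mulVec_mulVec]
    exact hx _ (hy w hw)

end RSS

open RSS in
theorem t_RSS : S_RSS := by
  intro G R k _ _ _ φ hφ n ρ r A B hR W hW
  have hW' : ∀ g : G, ∀ w ∈ W, ((ρ g : Matrix (Fin n) (Fin n) R).map φ).mulVec w ∈ W :=
    fun g w hw => hW g w hw
  have hA : ∀ t, ∀ w ∈ W, (φ.mapMatrix (A t)).mulVec w ∈ W := fun t => stab_adjoin φ ρ W hW' (hR.memA t)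
  have hB : ∀ t, ∀ w ∈ W, (φ.mapMatrix (B t)).mulVec w ∈ W := fun t => stab_adjoin φ ρ W hW' (hR.memB t)
  -- a projection onto `W`
  obtain ⟨g₀, hg₀⟩ := LinearMap.exists_leftInverse_of_injective W.subtype (Submodule.ker_subtype W)
  set f : (Fin n → k) →ₗ[k] (Fin n → k) := W.subtype.comp g₀ with hf
  have hf1 : ∀ w ∈ W, f w = w := by
    intro w hw
    have := LinearMap.congr_fun hg₀ ⟨w, hw⟩
    have h2 : g₀ w = ⟨w, hw⟩ := this
    rw [hf, LinearMap.comp_apply, h2]
    rfl
  have hf2 : ∀ v, f v ∈ W := fun v => (g₀ v).2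
  set p : Matrix (Fin n) (Fin n) k := LinearMap.toMatrix' f with hp
  have hpv : ∀ v, p.mulVec v = f v := by
    intro v
    rw [hp, ← Matrix.toLin'_apply, Matrix.toLin'_toMatrix']
  choose s hs using hφ
  set M₀ : Matrix (Fin n) (Fin n) R := fun i j => s (p i j) with hM₀
  have hM : φ.mapMatrix M₀ = p := by
    ext i j
    exact hs _
  have hop : ∀ M : Matrix (Fin n) (Fin n) R, φ.mapMatrix (op A B M) =
      ∑ t, φ.mapMatrix (A t) * φ.mapMatrix M * φ.mapMatrix (B t) := by
    intro M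
    unfold op
    rw [map_sum]
    exact Finset.sum_congr rfl fun t _ => by rw [map_mul, map_mul]
  have hopv : ∀ (M : Matrix (Fin n) (Fin n) R) (v : Fin n → k), (φ.mapMatrix (op A B M)).mulVec v =
      ∑ t, (φ.mapMatrix (A t)).mulVec ((φ.mapMatrix M).mulVec ((φ.mapMatrix (B t)).mulVec v)) := by
    intro M v
    rw [hop, Matrix.sum_mulVec]
    exact Finset.sum_congr rfl fun t _ => by rw [Matrix.mulVec_mulVec, Matrix.mulVec_mulVec, Matrix.mul_assoc]
  set q : Matrix (Fin n) (Fin n) k := φ.mapMatrix (op A B M₀) with hq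
  have q1 : ∀ g : G, ((ρ g : Matrix (Fin n) (Fin n) R).map φ) * q =
      q * ((ρ g : Matrix (Fin n) (Fin n) R).map φ) := by
    intro g
    have h1 := congrArg φ.mapMatrix (hR.inter M₀ g trivial)
    rw [map_mul, map_mul] at h1
    exact h1
  have q2 : ∀ v, q.mulVec v ∈ W := by
    intro v
    rw [hq, hopv]
    refine W.sum_mem fun t _ => hA t _ ?_
    rw [hM, hpv]
    exact hf2 _
  have q3 : ∀ w ∈ W, q.mulVec w = w := by
    intro w hw
    have h1 : φ.mapMatrix (op A B 1) = 1 := by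
      have h2 := hR.res 1 (fun g _ => by
        rw [Matrix.map_one _ (map_zero φ) (map_one φ), mul_one, one_mul])
      rw [Matrix.map_one _ (map_zero φ) (map_one φ)] at h2
      exact h2
    have h3 := hopv 1 w
    rw [h1, Matrix.one_mulVec, map_one] at h3
    rw [hq, hopv]
    refine Eq.trans (Finset.sum_congr rfl fun t _ => ?_) h3.symm
    rw [hM, hpv, hf1 _ (hB t w hw), Matrix.one_mulVec]
  refine ⟨LinearMap.ker (Matrix.toLin' q), ?_, ?_⟩
  · intro g u hu
    rw [LinearMap.mem_ker, Matrix.toLin'_apply] at hu ⊢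
    have h1 : (((ρ g : Matrix (Fin n) (Fin n) R).map φ)).mulVec (q.mulVec u) =
        q.mulVec (((ρ g : Matrix (Fin n) (Fin n) R).map φ).mulVec u) := by
      rw [Matrix.mulVec_mulVec, Matrix.mulVec_mulVec, q1]
    rw [hu, Matrix.mulVec_zero] at h1
    exact h1.symm
  · constructor
    · rw [Submodule.disjoint_def]
      intro w hw hk
      rw [LinearMap.mem_ker, Matrix.toLin'_apply] at hk
      rw [← q3 w hw, hk]
    · rw [codisjoint_iff, eq_top_iff]
      intro v _
      rw [Submodule.mem_sup]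
      refine ⟨q.mulVec v, q2 v, v - q.mulVec v, ?_, by abel⟩
      rw [LinearMap.mem_ker, Matrix.toLin'_apply, Matrix.mulVec_sub, q3 _ (q2 v), sub_self]

end Pool.Agent.NH56.PA
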