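import Pool.Agent.NH56.PA.Stm

/-!
# PA-SS: an abelian normal subgroup of a semisimple matrix group consists of semisimple matrices
-/

set_option autoImplicit false

namespace Pool.Agent.NH56.PA

namespace SS8

open Matrix Polynomial Pool.Agent.NH52.MB

variable {k : Type} [Field k] {n : ℕ}

/-- a subspace which is stable under `A` is stable under the polynomials in `A` -/
theorem stable_aeval {A : Matrix (Fin n) (Fin n) k} {W : Submodule k (Fin n → k)}
    (h : ∀ v ∈ W, A *ᵥ v ∈ W) (f : k[X]) : ∀ v ∈ W, (aeval A f) *ᵥ v ∈ W := by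
  induction f using Polynomial.induction_on' with
  | add p q hp hq =>
    intro v hv
    rw [map_add, Matrix.add_mulVec]
    exact W.add_mem (hp v hv) (hq v hv)
  | monomial m a =>
    intro v hv
    rw [aeval_monomial, ← Algebra.smul_def, Matrix.smul_mulVec]
    refine W.smul_mem _ ?_
    induction m with
    | zero => rw [pow_zero, Matrix.one_mulVec]; exact hv
    | succ m ih => rw [pow_succ', ← Matrix.mulVec_mulVec]; exact h _ ih

/-- commuting matrices: polynomials in them commute -/
theorem comm_aeval {A B : Matrix (Fin n) (Fin n) k} (h : A * B = B * A) (f : k[X]) :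
    aeval A f * B = B * aeval A f := by
  induction f using Polynomial.induction_on' with
  | add p q hp hq => rw [map_add, add_mul, mul_add, hp, hq]
  | monomial m a =>
    rw [aeval_monomial, ← Algebra.smul_def, Matrix.smul_mul, Matrix.mul_smul]
    congr 1
    exact (Commute.pow_left h m).eq

theorem main {G : Type} [Group G] (ρ : G →* GL (Fin n) k) (U : Subgroup G) [U.Normal]
    (hS : Sms ρ) (hc : ∀ g ∈ U, ∀ h ∈ U, ρ g * ρ h = ρ h * ρ g) (g : G) (hg : g ∈ U) :
    Squarefree (minpoly k (ρ g : Matrix (Fin n) (Fin n) k)) := by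
  classical
  let J : Set (Matrix (Fin n) (Fin n) k) :=
    {N | IsNilpotent N ∧ ∃ g ∈ U, ∃ f : k[X], N = aeval (ρ g : Matrix (Fin n) (Fin n) k) f}
  let W : Submodule k (Fin n → k) :=
    { carrier := {v | ∀ N ∈ J, N *ᵥ v = 0}
      add_mem' := fun {a b} ha hb N hN => by rw [Matrix.mulVec_add, ha N hN, hb N hN, add_zero]
      zero_mem' := fun N _ => Matrix.mulVec_zero N
      smul_mem' := fun c v hv N hN => by rw [Matrix.mulVec_smul, hv N hN, smul_zero] }
  have hcm : ∀ g ∈ U, ∀ h ∈ U, (ρ g : Matrix (Fin n) (Fin n) k) * ρ h = ρ h * ρ g := by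
    intro g hg h hh
    have := congrArg (fun z : GL (Fin n) k => (z : Matrix (Fin n) (Fin n) k)) (hc g hg h hh)
    simpa using this
  -- `W` is stable
  have hconj : ∀ (h : G), ∀ N ∈ J, ((ρ h)⁻¹ : GL (Fin n) k).val * N * (ρ h).val ∈ J := by
    rintro h N ⟨⟨m, hm⟩, g, hg, f, rfl⟩
    have h1 : ((ρ h)⁻¹ : GL (Fin n) k).val * (ρ h).val = 1 := by
      rw [← Units.val_mul, inv_mul_cancel, Units.val_one]
    have h2 : (ρ h).val * ((ρ h)⁻¹ : GL (Fin n) k).val = 1 := by
      rw [← Units.val_mul, mul_inv_cancel, Units.val_one]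
    have hpow : ∀ (B : Matrix (Fin n) (Fin n) k) (j : ℕ),
        (((ρ h)⁻¹ : GL (Fin n) k).val * B * (ρ h).val) ^ j =
          ((ρ h)⁻¹ : GL (Fin n) k).val * B ^ j * (ρ h).val := by
      intro B j
      induction j with
      | zero => rw [pow_zero, pow_zero, mul_one, h1]
      | succ j ih =>
        rw [pow_succ, ih, pow_succ]
        calc ((ρ h)⁻¹ : GL (Fin n) k).val * B ^ j * (ρ h).val *
              (((ρ h)⁻¹ : GL (Fin n) k).val * B * (ρ h).val)
            = ((ρ h)⁻¹ : GL (Fin n) k).val * B ^ j * ((ρ h).val *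
              ((ρ h)⁻¹ : GL (Fin n) k).val) * B * (ρ h).val := by simp only [mul_assoc]
          _ = _ := by rw [h2, mul_one]; simp only [mul_assoc]
    refine ⟨⟨m, by rw [hpow, hm, mul_zero, zero_mul]⟩, h⁻¹ * g * h,
      by simpa using (inferInstance : U.Normal).conj_mem g hg h⁻¹, f, ?_⟩
    have h3 : (ρ (h⁻¹ * g * h) : Matrix (Fin n) (Fin n) k) =
        ((ρ h)⁻¹ : GL (Fin n) k).val * (ρ g).val * (ρ h).val := by
      rw [map_mul, map_mul, map_inv]
      rfl
    rw [h3]
    clear hm
    induction f using Polynomial.induction_on' with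
    | add p q hp hq => rw [map_add, map_add, mul_add, add_mul, hp, hq]
    | monomial j a =>
      rw [aeval_monomial, aeval_monomial, ← Algebra.smul_def, ← Algebra.smul_def,
        Matrix.mul_smul, Matrix.smul_mul, hpow]
  have hWs : Stb ρ W := by
    intro h v hv N hN
    have h2 : (ρ h).val * ((ρ h)⁻¹ : GL (Fin n) k).val = 1 := by
      rw [← Units.val_mul, mul_inv_cancel, Units.val_one]
    have h3 := hv _ (hconj h N hN)
    have h4 : N * (ρ h).val = (ρ h).val * (((ρ h)⁻¹ : GL (Fin n) k).val * N * (ρ h).val) := by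
      rw [← mul_assoc, ← mul_assoc, h2, one_mul]
    rw [Matrix.mulVec_mulVec, h4, ← Matrix.mulVec_mulVec, h3, Matrix.mulVec_zero]
  obtain ⟨C, hCs, hC⟩ := hS W hWs
  -- there are no nonzero stable subspaces of `C`
  have hbot : C = ⊥ := by
    by_contra hne
    let T : Set (Submodule k (Fin n → k)) :=
      {D | D ≠ ⊥ ∧ D ≤ C ∧ ∀ g ∈ U, ∀ v ∈ D, (ρ g : Matrix (Fin n) (Fin n) k) *ᵥ v ∈ D}
    have hT : T.Nonempty := ⟨C, hne, le_rfl, fun g _ v hv => hCs g v hv⟩
    obtain ⟨D, ⟨hD0, hDC, hDs⟩, hmin⟩ := WellFounded.has_min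
      (wellFounded_lt (α := Submodule k (Fin n → k))) T hT
    refine hD0 ?_
    have hDW : D ≤ W := by
      intro v hv N hN
      obtain ⟨⟨m, hm⟩, g, hg, f, hNf⟩ := hN
      have hND : ∀ v ∈ D, N *ᵥ v ∈ D := by
        intro v hv
        rw [hNf]
        exact stable_aeval (hDs g hg) f v hv
      by_contra hv0
      have hmap : D.map (Matrix.mulVecLin N) = D := by
        by_contra hneq
        have hle : D.map (Matrix.mulVecLin N) ≤ D := by
          rintro _ ⟨u, hu, rfl⟩
          exact hND u hu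
        refine hmin (D.map (Matrix.mulVecLin N)) ⟨?_, hle.trans hDC, ?_⟩
          (lt_of_le_of_ne hle hneq)
        · intro hb
          apply hv0
          have : Matrix.mulVecLin N v ∈ D.map (Matrix.mulVecLin N) := Submodule.mem_map_of_mem hv
          rw [hb, Submodule.mem_bot] at this
          exact this
        · rintro h hh _ ⟨u, hu, rfl⟩
          refine ⟨(ρ h : Matrix (Fin n) (Fin n) k) *ᵥ u, hDs h hh u hu, ?_⟩
          rw [Matrix.mulVecLin_apply, Matrix.mulVecLin_apply, Matrix.mulVec_mulVec,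
            Matrix.mulVec_mulVec, hNf, comm_aeval (hcm g hg h hh)]
      have hpow : ∀ j : ℕ, ∀ u ∈ D, ∃ u' ∈ D, u = (N ^ j) *ᵥ u' := by
        intro j
        induction j with
        | zero => exact fun u hu => ⟨u, hu, by rw [pow_zero, Matrix.one_mulVec]⟩
        | succ j ih =>
          intro u hu
          obtain ⟨u', hu', rfl⟩ := ih u hu
          rw [← hmap] at hu'
          obtain ⟨w, hw, rfl⟩ := hu'
          exact ⟨w, hw, by rw [Matrix.mulVecLin_apply, Matrix.mulVec_mulVec, pow_succ]⟩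
      obtain ⟨u', -, hu'⟩ := hpow m v hv
      rw [hm, Matrix.zero_mulVec] at hu'
      rw [hu', Matrix.mulVec_zero] at hv0
      exact hv0 rfl
    exact le_bot_iff.1 (hC.inf_eq_bot ▸ le_inf hDW hDC)
  have hW : W = ⊤ := by
    have := hC.sup_eq_top
    rwa [hbot, sup_bot_eq] at this
  have hJ : ∀ N ∈ J, N = 0 := by
    intro N hN
    ext i j
    have h1 : Pi.single j (1 : k) ∈ W := by rw [hW]; trivial
    have h2 := congrFun (h1 N hN) i
    rw [Matrix.mulVec_single_one] at h2
    simpa using h2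
  -- the minimal polynomial
  set x : Matrix (Fin n) (Fin n) k := (ρ g : Matrix (Fin n) (Fin n) k) with hx
  intro p hp
  obtain ⟨q, hq⟩ := hp
  have h1 : aeval x (p * q) = 0 := by
    refine hJ _ ⟨⟨2, ?_⟩, g, hg, p * q, rfl⟩
    rw [← map_pow]
    have h2 : (p * q) ^ 2 = minpoly k x * q := by rw [hq]; ring
    rw [h2, map_mul, minpoly.aeval, zero_mul]
  have h3 : minpoly k x ∣ p * q := minpoly.dvd k x h1
  have h4 : minpoly k x ≠ 0 := minpoly.ne_zero (Matrix.isIntegral x)
  rw [hq] at h3 h4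
  have hpq : p * q ≠ 0 := fun h => h4 (by rw [mul_assoc, h, mul_zero])
  obtain ⟨r, hr⟩ := h3
  have h5 : p * q * 1 = p * q * (p * r) := by rw [mul_one]; nth_rewrite 1 [hr]; ring
  have h6 := mul_left_cancel₀ hpq h5
  exact IsUnit.of_mul_eq_one r h6.symm

end SS8

theorem t_SS : S_SS := fun _ _ _ _ _ _ ρ U _ hS hc g hg => SS8.main ρ U hS hc g hg

end Pool.Agent.NH56.PA
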