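import Pool.Agent.NH52.MB.Stm

/-!
# Project PA: potentially abelian systems (statements)
-/

set_option autoImplicit false

namespace Pool.Agent.NH56.PA

open Matrix Polynomial Pool.Agent.NH52.MB

/-- PA-SS: an abelian normal subgroup of a semisimple matrix group consists of semisimple matrices -/
def S_SS : Prop := ∀ (G k : Type) [Group G] [Field k] [CharZero k] (n : ℕ) (ρ : G →* GL (Fin n) k)
  (U : Subgroup G) [U.Normal], Sms ρ → (∀ g ∈ U, ∀ h ∈ U, ρ g * ρ h = ρ h * ρ g) →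
  ∀ g ∈ U, Squarefree (minpoly k (ρ g : Matrix (Fin n) (Fin n) k))

/-- PA-DIAG: simultaneous diagonalization -/
def S_DIAG : Prop := ∀ (U K L : Type) [Group U] [Field K] [CharZero K] [Field L] [IsAlgClosed L]
  [Algebra K L] (n : ℕ) (ρ : U →* GL (Fin n) K), (∀ g h, ρ g * ρ h = ρ h * ρ g) →
  (∀ g, Squarefree (minpoly K (ρ g : Matrix (Fin n) (Fin n) K))) →
  ∃ (P : GL (Fin n) L) (χ : Fin n → U →* L), ∀ g,
    (ρ g : Matrix (Fin n) (Fin n) K).map (algebraMap K L) =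
      P * Matrix.diagonal (fun i => χ i g) * (P⁻¹ : GL (Fin n) L)

open Classical in
/-- PA-CHI: characters which agree at one generic element agree (B. H. Neumann) -/
def S_CHI : Prop := ∀ (U K : Type) [Group U] [Field K] (n s : ℕ) (χ : Fin n → U →* K),
  (∀ g, (Finset.univ.image fun i => χ i g).card ≤ s) →
  (∀ (W : Subgroup U) (I : Finset (Fin n × Fin n)), W.FiniteIndex →
    (∀ g, g ∈ W ↔ ∀ p ∈ I, χ p.1 g = χ p.2 g) →
    ∃ w ∈ W, s ≤ (Finset.univ.image fun i => χ i w).card) →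
  ∀ u, s ≤ (Finset.univ.image fun i => χ i u).card → ∀ i j, χ i u = χ j u → ∀ g, χ i g = χ j g

open Classical in
/-- PA-ND1: the minimal polynomial of a semisimple matrix with integral characteristic polynomial -/
def S_ND1 : Prop :=
  ∀ (K : Type) [Field K] [CharZero K] (n : ℕ) (X : Matrix (Fin n) (Fin n) K) (P : ℤ[X]),
    P.Monic → X.charpoly = P.map (Int.castRingHom K) → Squarefree (minpoly K X) →
    (minpoly K X).natDegree = (P.aroots ℂ).toFinset.card ∧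
      ∀ f : ℤ[X], (∀ z : ℂ, z ∈ P.aroots ℂ → aeval z f = 0) →
        aeval X (f.map (Int.castRingHom K)) = 0

open Classical in
/-- PA-ND2: the degree of the minimal polynomial of a diagonalizable matrix -/
def S_ND2 : Prop := ∀ (K L : Type) [Field K] [Field L] [Algebra K L] (n : ℕ)
  (X : Matrix (Fin n) (Fin n) K) (P : GL (Fin n) L) (d : Fin n → L),
  X.map (algebraMap K L) = P * Matrix.diagonal d * (P⁻¹ : GL (Fin n) L) →
  (minpoly K X).natDegree = (Finset.univ.image d).card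

/-- PA-RAD: a separable polynomial with the same roots -/
def S_RAD : Prop := ∀ P : ℤ[X], P.Monic → ∃ f a b : ℤ[X], ∃ D : ℤ, D ≠ 0 ∧
  (∀ z : ℂ, z ∈ P.aroots ℂ → aeval z f = 0) ∧ a * f + b * derivative f = C D

/-- PA-OPEN: the degree of the minimal polynomial is lower semicontinuous -/
def S_OPEN : Prop := ∀ (ℓ : ℕ) [Fact ℓ.Prime] (n t : ℕ),
  IsOpen {X : Matrix (Fin n) (Fin n) ℚ_[ℓ] | t ≤ (minpoly ℚ_[ℓ] X).natDegree}

/-- PA-LAG: interpolation -/
def S_LAG : Prop := ∀ (K L : Type) [Field K] [Field L] [Algebra K L] (n : ℕ)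
  (X Y : Matrix (Fin n) (Fin n) K) (P : GL (Fin n) L) (d e : Fin n → L),
  X.map (algebraMap K L) = P * Matrix.diagonal d * (P⁻¹ : GL (Fin n) L) →
  Y.map (algebraMap K L) = P * Matrix.diagonal e * (P⁻¹ : GL (Fin n) L) →
  (∀ i j, d i = d j → e i = e j) → ∃ h : K[X], Y = aeval X h

/-- the operator `M ↦ ∑ t, A t * M * B t` -/
def op {R : Type} [CommRing R] {n r : ℕ} (A B : Fin r → Matrix (Fin n) (Fin n) R)
    (M : Matrix (Fin n) (Fin n) R) : Matrix (Fin n) (Fin n) R := ∑ t, A t * M * B t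

/-- PA-RET: the separability idempotent of `R[T]/(f)` -/
def S_RET : Prop := ∀ (R k : Type) [CommRing R] [CommRing k] (φ : R →+* k) (n : ℕ)
  (x y : Matrix (Fin n) (Fin n) R) (f a b : R[X]), a * f + b * derivative f = 1 →
  aeval x f = 0 → aeval y f = 0 →
  ∃ (r : ℕ) (A B : Fin r → Matrix (Fin n) (Fin n) R),
    (∀ t, A t ∈ Algebra.adjoin R {x}) ∧ (∀ t, B t ∈ Algebra.adjoin R {y}) ∧
    (∀ M, x * op A B M = op A B M * y) ∧
    ∀ M, x.map φ * M.map φ = M.map φ * y.map φ → (op A B M).map φ = M.map φ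

/-- a retraction to the intertwining matrices for the subgroup `U` -/
structure Ret {G R k : Type} [Group G] [CommRing R] [CommRing k] (φ : R →+* k) {n : ℕ}
    (ρ₁ ρ₂ : G →* GL (Fin n) R) (U : Subgroup G) (r : ℕ)
    (A B : Fin r → Matrix (Fin n) (Fin n) R) : Prop where
  memA : ∀ t, A t ∈ Algebra.adjoin R (Set.range fun g => (ρ₁ g : Matrix (Fin n) (Fin n) R))
  memB : ∀ t, B t ∈ Algebra.adjoin R (Set.range fun g => (ρ₂ g : Matrix (Fin n) (Fin n) R))
  inter : ∀ M, ∀ g ∈ U, (ρ₁ g : Matrix (Fin n) (Fin n) R) * op A B M = op A B M * ρ₂ g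
  res : ∀ M : Matrix (Fin n) (Fin n) R, (∀ g ∈ U, (ρ₁ g : Matrix (Fin n) (Fin n) R).map φ * M.map φ =
    M.map φ * (ρ₂ g : Matrix (Fin n) (Fin n) R).map φ) → (op A B M).map φ = M.map φ

/-- PA-AVG: averaging over `G / U` -/
def S_AVG : Prop := ∀ (G R k : Type) [Group G] [CommRing R] [CommRing k] (φ : R →+* k) (n : ℕ)
  (ρ₁ ρ₂ : G →* GL (Fin n) R) (U : Subgroup G), U.FiniteIndex → IsUnit ((U.index : ℕ) : R) →
  ∀ (r : ℕ) (A B : Fin r → Matrix (Fin n) (Fin n) R), Ret φ ρ₁ ρ₂ U r A B →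
  ∃ (r' : ℕ) (A' B' : Fin r' → Matrix (Fin n) (Fin n) R), Ret φ ρ₁ ρ₂ ⊤ r' A' B'

/-- PA-RSS: semisimplicity of the residual representation -/
def S_RSS : Prop := ∀ (G R k : Type) [Group G] [CommRing R] [Field k] (φ : R →+* k),
  Function.Surjective φ → ∀ (n : ℕ) (ρ : G →* GL (Fin n) R) (r : ℕ)
  (A B : Fin r → Matrix (Fin n) (Fin n) R), Ret φ ρ ρ ⊤ r A B →
  Sms ((Matrix.GeneralLinearGroup.map φ).comp ρ)

/-- PA-ISO: the lattices are isomorphic -/
def S_ISO : Prop := ∀ (G R k : Type) [Group G] [CommRing R] [Field k] (φ : R →+* k),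
  Function.Surjective φ → IsLocalHom φ → ∀ (n : ℕ) (ρ₁ ρ₂ : G →* GL (Fin n) R),
  (∀ m : ℕ, 0 < m → m ≤ n → (m : k) ≠ 0) →
  Sms ((Matrix.GeneralLinearGroup.map φ).comp ρ₁) → Sms ((Matrix.GeneralLinearGroup.map φ).comp ρ₂) →
  (∀ g, (ρ₁ g : Matrix (Fin n) (Fin n) R).trace = (ρ₂ g : Matrix (Fin n) (Fin n) R).trace) →
  ∀ (r : ℕ) (A B : Fin r → Matrix (Fin n) (Fin n) R), Ret φ ρ₁ ρ₂ ⊤ r A B →
  ∃ C : GL (Fin n) R, ∀ g, ρ₁ g = C * ρ₂ g * C⁻¹

end Pool.Agent.NH56.PA
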